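import Pool.Agent.V7H43.GD.Main

/-!
Self-maps of quasi-projective varieties that are given by forms whose coefficients have a large
transcendence degree.
-/

set_option autoImplicit false

open MvPolynomial Pool.Agent.TH145.GH Pool.Agent.TH145.MG
open Pool.Agent.W602.GT
open Pool.Agent.V7H76.MP Pool.Agent.V7H43.GU

namespace Pool.Agent.V7H43.GD

/-- The form `F a` is homogeneous of degree `d a` for all `a`. Let `N` be the number of the
coefficients of forms of the degrees `d a`, all these forms together. The field generated over `k`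
by the coefficients of all the `F a` has a transcendence degree at least `N - δ` over `k`. Moreover,
`K` has a transcendence degree at least `N` over `k`. -/
def LargeTrdeg {n : ℕ} {A : Type} (d : A → ℕ) (k : Type) [Field k] {K : Type} [Field K]
    [Algebra k K] (δ : ℕ) (F : A → MvPolynomial (Fin (n + 1)) K) : Prop :=
  (∀ a, (F a).IsHomogeneous (d a)) ∧
  Cardinal.mk ((a : A) × {I : Fin (n + 1) →₀ ℕ // ∑ s, I s = d a}) ≤
    Algebra.trdeg k (IntermediateField.adjoin k (Set.range
      fun p : A × (Fin (n + 1) →₀ ℕ) => (F p.1).coeff p.2)) + δ ∧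
  Cardinal.mk ((a : A) × {I : Fin (n + 1) →₀ ℕ // ∑ s, I s = d a}) ≤ Algebra.trdeg k K

section large

variable {k K : Type} [Field k] [Field K] [Algebra k K] {n δ : ℕ} {A : Type} {d : A → ℕ}
  {F : A → MvPolynomial (Fin (n + 1)) K}

theorem sum_of_hom {R : Type} [CommSemiring R] {G : MvPolynomial (Fin (n + 1)) R} {e : ℕ}
    (hG : G.IsHomogeneous e) {u : Fin (n + 1) →₀ ℕ} (hu : G.coeff u ≠ 0) : ∑ s, u s = e := by
  have h1 := hG hu
  rw [← h1, Finsupp.weight_apply, Finsupp.sum_fintype _ _ (by simp)]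
  simp

theorem LargeTrdeg.codim (hF : LargeTrdeg d k δ F) :
    Codim (fun _ : Fin (n + 1) => ()) (fun a _ => d a) k δ F := by
  obtain ⟨h1, h2, h3⟩ := hF
  have h0 : ∀ (I : Fin (n + 1) →₀ ℕ) (e : ℕ), mdeg (fun _ : Fin (n + 1) => ()) I = (fun _ => e) ↔
      ∑ s, I s = e := by
    intro I e
    constructor
    · intro h
      have h4 := congrFun h ()
      unfold mdeg at h4
      simpa using h4
    · intro h
      funext i
      unfold mdeg
      simpa using h
  have hc : Cardinal.mk ((a : A) × {I : Fin (n + 1) →₀ ℕ //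
      mdeg (fun _ : Fin (n + 1) => ()) I = (fun _ => d a)}) =
      Cardinal.mk ((a : A) × {I : Fin (n + 1) →₀ ℕ // ∑ s, I s = d a}) :=
    Cardinal.mk_congr (Equiv.sigmaCongrRight fun a =>
      Equiv.subtypeEquivRight fun I => h0 I (d a))
  refine ⟨fun a u hu => ?_, ?_, ?_⟩
  · exact (h0 u (d a)).2 (sum_of_hom (h1 a) (mem_support_iff.1 hu))
  · rw [hc]
    refine h2.trans (add_le_add_left ?_ _)
    have h4 : IntermediateField.adjoin k (Set.range
        fun p : A × (Fin (n + 1) →₀ ℕ) => (F p.1).coeff p.2) ≤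
        IntermediateField.adjoin k (Set.range
        fun p : (a : A) × {I : Fin (n + 1) →₀ ℕ //
          mdeg (fun _ : Fin (n + 1) => ()) I = (fun _ => d a)} => (F p.1).coeff p.2.1) := by
      rw [IntermediateField.adjoin_le_iff]
      rintro _ ⟨⟨a, u⟩, rfl⟩
      by_cases hu : (F a).coeff u = 0
      · dsimp only
        rw [hu]
        exact zero_mem _
      · exact IntermediateField.subset_adjoin _ _
          ⟨⟨a, ⟨u, (h0 u (d a)).2 (sum_of_hom (h1 a) hu)⟩⟩, rfl⟩
    exact trdeg_le_of_injective (IntermediateField.inclusion h4)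
      (IntermediateField.inclusion_injective h4)
  · rw [hc]
    exact h3

end large

section dyn

variable {k K : Type} [Field k] [Field K] [Algebra k K] {n : ℕ} {A : Type}

/-- The values of the polynomials `Ψ i` in the variables `x s` and `y a`. -/
noncomputable def val (Ψ : Fin (n + 1) → MvPolynomial (Fin (n + 1) ⊕ A) (algebraicClosure k K))
    (x : Fin (n + 1) → K) (y : A → K) : Fin (n + 1) → K :=
  fun i => aeval (Sum.elim x y) (Ψ i)

/-- The map `Φ` maps the subset `X` of projective space to itself, and on `X` it is the map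
`x ↦ (Ψ i (x, F x))`, where `F x` is the tuple of the values of the forms `F a` at `x`. -/
def GivenBy (X : Set (Projectivization K (Fin (n + 1) → K)))
    (Φ : Projectivization K (Fin (n + 1) → K) → Projectivization K (Fin (n + 1) → K))
    (Ψ : Fin (n + 1) → MvPolynomial (Fin (n + 1) ⊕ A) (algebraicClosure k K))
    (F : A → MvPolynomial (Fin (n + 1)) K) : Prop :=
  ∀ (x : Fin (n + 1) → K) (hx : x ≠ 0), Projectivization.mk K x hx ∈ X →
    Φ (Projectivization.mk K x hx) ∈ X ∧ val Ψ x (fun a => eval x (F a)) ≠ 0 ∧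
    val Ψ x (fun a => eval x (F a)) ∈ (Φ (Projectivization.mk K x hx)).submodule

/-- The transcendence degree over `k` of the coordinates of each point of `X`, one of the
coordinates being `1`, is at most `m`. -/
def TrdegLE (k : Type) [Field k] {K : Type} [Field K] [Algebra k K] {n : ℕ}
    (X : Set (Projectivization K (Fin (n + 1) → K))) (m : ℕ) : Prop :=
  ∀ (x : Fin (n + 1) → K) (hx : x ≠ 0), (∃ s, x s = 1) → Projectivization.mk K x hx ∈ X →
    Algebra.trdeg k (IntermediateField.adjoin k (Set.range x)) ≤ m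

/-- The closed set of the zeros of a set of forms. -/
def zeros (C : Set (MvPolynomial (Fin (n + 1)) (algebraicClosure k K))) :
    Set (Projectivization K (Fin (n + 1) → K)) :=
  {p | ∀ G ∈ C, aeval p.rep G = 0}

/-- For each point `x` of `X`, one of its coordinates being `1`, the set of the `y` such that
`Ψ (x, y)` is in the zero set of `C` has codimension at least `c` in the affine space of all `y`, in
terms of the transcendence degree of `y` over the field of `x`. -/
def FibresCodim (X : Set (Projectivization K (Fin (n + 1) → K))) [Fintype A]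
    (Ψ : Fin (n + 1) → MvPolynomial (Fin (n + 1) ⊕ A) (algebraicClosure k K))
    (C : Set (MvPolynomial (Fin (n + 1)) (algebraicClosure k K))) (c : ℕ) : Prop :=
  ∀ (x : Fin (n + 1) → K) (hx : x ≠ 0), (∃ s, x s = 1) → Projectivization.mk K x hx ∈ X →
    ∀ y : A → K, val Ψ x y ≠ 0 → (∀ G ∈ C, aeval (val Ψ x y) G = 0) →
    Algebra.trdeg (IntermediateField.adjoin (algebraicClosure k K) (Set.range x))
      (IntermediateField.adjoin (IntermediateField.adjoin (algebraicClosure k K) (Set.range x))
        (Set.range y)) + c ≤ (Fintype.card A : Cardinal)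

/-- The point has coordinates in the field `L`. -/
def Over {k K : Type} [Field k] [Field K] [Algebra k K] (L : IntermediateField k K)
    (p : Projectivization K (Fin (n + 1) → K)) : Prop :=
  ∃ (x : Fin (n + 1) → K) (hx : x ≠ 0), (∀ s, x s ∈ L) ∧ p = Projectivization.mk K x hx

/-- The values of a form at proportional points. -/
theorem hom_scale {R L : Type} [CommSemiring R] [Field L] [Algebra R L]
    {G : MvPolynomial (Fin (n + 1)) R} {e : ℕ} (hG : G.IsHomogeneous e) (t : L)
    (v : Fin (n + 1) → L) : aeval (t • v) G = t ^ e * aeval v G := by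
  rw [aeval_def, eval₂_eq', aeval_def, eval₂_eq', Finset.mul_sum]
  refine Finset.sum_congr rfl fun u hu => ?_
  have h1 : ∑ i, u i = e := sum_of_hom hG (mem_support_iff.1 hu)
  simp only [Pi.smul_apply, smul_eq_mul, mul_pow, Finset.prod_mul_distrib,
    Finset.prod_pow_eq_pow_sum]
  rw [h1]
  ring

/-- A point in the zero set of forms. -/
theorem zeros_iff {C : Set (MvPolynomial (Fin (n + 1)) (algebraicClosure k K))}
    (hC : ∀ G ∈ C, ∃ e, G.IsHomogeneous e) {p : Projectivization K (Fin (n + 1) → K)}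
    {v : Fin (n + 1) → K} (hv : v ≠ 0) (hvp : v ∈ p.submodule) :
    p ∈ zeros C ↔ ∀ G ∈ C, aeval v G = 0 := by
  rw [Projectivization.submodule_eq, Submodule.mem_span_singleton] at hvp
  obtain ⟨t, rfl⟩ := hvp
  have ht : t ≠ 0 := by
    rintro rfl
    exact hv (zero_smul _ _)
  refine forall₂_congr fun G hG => ?_
  obtain ⟨e, he⟩ := hC G hG
  rw [hom_scale he, mul_eq_zero, or_iff_right (pow_ne_zero _ ht)]

/-- A normalised representative. -/
theorem exists_norm (L : IntermediateField (algebraicClosure k K) K)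
    {p : Projectivization K (Fin (n + 1) → K)} (hp : Over L p) :
    ∃ (x : Fin (n + 1) → K) (hx : x ≠ 0), (∃ s, x s = 1) ∧ (∀ s, x s ∈ L) ∧
      p = Projectivization.mk K x hx := by
  obtain ⟨x, hx, hxL, rfl⟩ := hp
  obtain ⟨s, hs⟩ := Function.ne_iff.1 hx
  have hs' : x s ≠ 0 := hs
  have hx' : (x s)⁻¹ • x ≠ 0 := smul_ne_zero (inv_ne_zero hs') hx
  refine ⟨(x s)⁻¹ • x, hx', ⟨s, ?_⟩, fun j => ?_, ?_⟩
  · rw [Pi.smul_apply, smul_eq_mul, inv_mul_cancel₀ hs']
  · rw [Pi.smul_apply, smul_eq_mul]
    exact mul_mem (inv_mem (hxL s)) (hxL j)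
  · rw [Projectivization.mk_eq_mk_iff']
    exact ⟨x s, by rw [smul_smul, mul_inv_cancel₀ hs', one_smul]⟩

end dyn

section main

variable {k K : Type} [Field k] [Field K] [IsAlgClosed K] [CharZero K] [Algebra k K]
  {n m c δ : ℕ} {A : Type} [Fintype A] {d : A → ℕ} {F : A → MvPolynomial (Fin (n + 1)) K}
  {X : Set (Projectivization K (Fin (n + 1) → K))}
  {Φ : Projectivization K (Fin (n + 1) → K) → Projectivization K (Fin (n + 1) → K)}
  {Ψ : Fin (n + 1) → MvPolynomial (Fin (n + 1) ⊕ A) (algebraicClosure k K)}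
  {C : Set (MvPolynomial (Fin (n + 1)) (algebraicClosure k K))}

/-- Finiteness of the points in the preimage of a closed set. -/
theorem finite_pre (hF : LargeTrdeg d k δ F) (hX : TrdegLE (algebraicClosure k K) X m)
    (hΦ : GivenBy X Φ Ψ F) (hC : ∀ G ∈ C, ∃ e, G.IsHomogeneous e) (hc : FibresCodim X Ψ C c)
    (hd : ∀ B : Finset A, B.card = c → 2 * m + 2 + δ ≤ ∑ a ∈ B, (d a + 1)) (T : Finset K) :
    {p ∈ X | Over (IntermediateField.adjoin (algebraicClosure k K) (T : Set K)) p ∧
      Φ p ∈ zeros C}.Finite := by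
  classical
  have hfin := fin_codim hF.codim T
  obtain ⟨Z, hZ⟩ : ∃ Z, Z = {x : Fin (n + 1) → K |
      (∀ j, x j ∈ IntermediateField.adjoin (algebraicClosure k K) (T : Set K)) ∧
      (∀ i : Unit, ∃ s, (fun _ : Fin (n + 1) => ()) s = i ∧ x s = 1) ∧
      PtCond (fun _ : Fin (n + 1) => ()) (algebraicClosure k K) (fun a _ => d a)
        (fun _ => 2 + δ) 0 x fun a => eval x (F a)} := ⟨_, rfl⟩
  rw [← hZ] at hfin
  have hZfin : Finite Z := hfin
  refine (Set.finite_range fun x : {x : Z // x.1 ≠ 0} =>
    Projectivization.mk K x.1.1 x.2).subset ?_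
  rintro p ⟨hpX, hpT, hpV⟩
  obtain ⟨x, hx, ⟨s, hs⟩, hxL, rfl⟩ := exists_norm _ hpT
  refine ⟨⟨⟨x, ?_⟩, hx⟩, rfl⟩
  rw [hZ]
  refine ⟨hxL, fun i => ⟨s, rfl, hs⟩, ?_⟩
  obtain ⟨hΦX, hv0, hv⟩ := hΦ x hx hpX
  have hV := (zeros_iff hC hv0 hv).1 hpV
  have hy := hc x hx ⟨s, hs⟩ hpX (fun a => eval x (F a)) hv0 hV
  obtain ⟨J, hJ, hJ'⟩ := exists_algOver (k := algebraicClosure k K) x fun a => eval x (F a)
  -- the number of the elements of `J`
  have hJc : c ≤ J.card := by
    obtain ⟨f, hf⟩ : ∃ f : {a // a ∉ J} → IntermediateField.adjoin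
        (IntermediateField.adjoin (algebraicClosure k K) (Set.range x))
        (Set.range fun a => eval x (F a)), ∀ a, (f a : K) = eval x (F a.1) :=
      ⟨fun a => ⟨eval x (F a.1), IntermediateField.subset_adjoin _ _ ⟨a.1, rfl⟩⟩, fun _ => rfl⟩
    have hfi : AlgebraicIndependent
        (IntermediateField.adjoin (algebraicClosure k K) (Set.range x)) f := by
      refine AlgebraicIndependent.of_comp (IntermediateField.adjoin
        (IntermediateField.adjoin (algebraicClosure k K) (Set.range x))
        (Set.range fun a => eval x (F a))).val ?_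
      have h1 : (⇑(IntermediateField.adjoin
        (IntermediateField.adjoin (algebraicClosure k K) (Set.range x))
        (Set.range fun a => eval x (F a))).val ∘ f) = fun a : {a // a ∉ J} => eval x (F a.1) :=
        funext hf
      rw [h1]
      exact hJ
    have h2 := hfi.cardinalMk_le_trdeg
    have h3 := (add_le_add_left h2 (c : Cardinal)).trans hy
    rw [Cardinal.mk_fintype, Fintype.card_subtype_compl, Fintype.card_coe] at h3
    have h4 : Fintype.card A - J.card + c ≤ Fintype.card A := by exact_mod_cast h3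
    have h5 := Finset.card_le_univ J
    omega
  obtain ⟨B, hBJ, hBc⟩ := Finset.exists_subset_card_eq hJc
  have hm := hX x hx ⟨s, hs⟩ hpX
  refine ⟨m, fun _ => m, J, hm, fun i => ?_, hJ', fun i => ?_⟩
  · have h1 : x '' {s | (fun _ : Fin (n + 1) => ()) s = i} = Set.range x := by
      rw [← Set.image_univ]
      congr 1
      ext s
      simp
    rw [h1]
    exact hm
  · have h1 := hd B hBc
    have h2 : ∑ a ∈ B, (d a + 1) ≤ ∑ a ∈ J, (d a + 1) :=
      Finset.sum_le_sum_of_subset hBJ
    dsimp only
    omega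

omit [IsAlgClosed K] [CharZero K] in
/-- The image of a point over a field that contains the coefficients. -/
theorem Over.map {L : IntermediateField (algebraicClosure k K) K} (hΦ : GivenBy X Φ Ψ F)
    (hFL : ∀ a u, (F a).coeff u ∈ L) {p : Projectivization K (Fin (n + 1) → K)} (hpX : p ∈ X)
    (hp : Over L p) : Over L (Φ p) := by
  obtain ⟨x, hx, hxL, rfl⟩ := hp
  obtain ⟨-, hv0, hv⟩ := hΦ x hx hpX
  refine ⟨_, hv0, fun s => ?_, ?_⟩
  · have hF' : ∀ a, eval x (F a) ∈ L := fun a => by
      rw [eval_eq']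
      exact sum_mem fun u _ => mul_mem (hFL a u) (prod_mem fun s _ => pow_mem (hxL s) _)
    unfold val
    rw [aeval_def, eval₂_eq']
    refine sum_mem fun u _ => mul_mem (L.algebraMap_mem _) (prod_mem fun q _ => pow_mem ?_ _)
    rcases q with s | a
    · exact hxL s
    · exact hF' a
  · rw [Projectivization.submodule_eq, Submodule.mem_span_singleton] at hv
    obtain ⟨t, ht⟩ := hv
    conv_lhs => rw [← Projectivization.mk_rep (Φ (Projectivization.mk K x hx))]
    rw [Projectivization.mk_eq_mk_iff']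
    have ht0 : t ≠ 0 := by
      rintro rfl
      rw [zero_smul] at ht
      exact hv0 ht.symm
    exact ⟨t⁻¹, by rw [← ht, smul_smul, inv_mul_cancel₀ ht0, one_smul]⟩

end main

/-- A set of natural numbers that becomes periodic is a finite union of arithmetic
progressions. -/
theorem union_progressions {R : Set ℕ} {i r : ℕ} (hr : 0 < r)
    (h : ∀ j, i ≤ j → (j ∈ R ↔ j + r ∈ R)) :
    ∃ S : Finset (ℕ × ℕ), R = {j | ∃ t ∈ S, ∃ l, j = t.1 + t.2 * l} := by
  classical
  refine ⟨((Finset.range i).filter (· ∈ R)).image (fun j => (j, 0)) ∪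
    ((Finset.Ico i (i + r)).filter (· ∈ R)).image (fun j => (j, r)), ?_⟩
  have h1 : ∀ (l j : ℕ), i ≤ j → (j ∈ R ↔ j + r * l ∈ R) := by
    intro l
    induction l with
    | zero => intro j _; rw [mul_zero, add_zero]
    | succ l ih =>
      intro j hj
      rw [ih j hj, h _ (by omega), Nat.mul_succ, add_assoc]
  ext j
  constructor
  · intro hj
    by_cases hji : j < i
    · exact ⟨(j, 0), Finset.mem_union_left _ (Finset.mem_image.2
        ⟨j, Finset.mem_filter.2 ⟨Finset.mem_range.2 hji, hj⟩, rfl⟩), 0, by simp⟩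
    · rw [not_lt] at hji
      obtain ⟨q, hq⟩ : ∃ q, q = i + (j - i) % r := ⟨_, rfl⟩
      have h2 : j = q + r * ((j - i) / r) := by
        have h3 := Nat.mod_add_div (j - i) r
        omega
      have h3 : q < i + r := by
        have := Nat.mod_lt (j - i) hr
        omega
      refine ⟨(q, r), Finset.mem_union_right _ (Finset.mem_image.2
        ⟨q, Finset.mem_filter.2 ⟨Finset.mem_Ico.2 ⟨by omega, h3⟩, ?_⟩, rfl⟩), _, h2⟩
      rw [h1 ((j - i) / r) q (by omega), ← h2]
      exact hj
  · rintro ⟨t, ht, l, rfl⟩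
    rcases Finset.mem_union.1 ht with ht | ht
    · obtain ⟨j, hj, rfl⟩ := Finset.mem_image.1 ht
      rw [zero_mul, add_zero]
      exact (Finset.mem_filter.1 hj).2
    · obtain ⟨j, hj, rfl⟩ := Finset.mem_image.1 ht
      have h2 := Finset.mem_filter.1 hj
      exact (h1 l j (Finset.mem_Ico.1 h2.1).1).1 h2.2

/-- A finite set of natural numbers is a finite union of arithmetic progressions. -/
theorem union_finite {R : Set ℕ} (h : R.Finite) :
    ∃ S : Finset (ℕ × ℕ), R = {j | ∃ t ∈ S, ∃ l, j = t.1 + t.2 * l} := by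
  obtain ⟨B, hB⟩ := h.bddAbove
  refine union_progressions (i := B + 1) (r := 1) one_pos fun j hj => ?_
  constructor
  · intro h1
    exact absurd (hB h1) (by omega)
  · intro h1
    exact absurd (hB h1) (by omega)

section dml

variable {k K : Type} [Field k] [Field K] [IsAlgClosed K] [CharZero K] [Algebra k K]
  {n m c δ : ℕ} {A : Type} [Fintype A] {d : A → ℕ} {F : A → MvPolynomial (Fin (n + 1)) K}
  {X : Set (Projectivization K (Fin (n + 1) → K))}
  {Φ : Projectivization K (Fin (n + 1) → K) → Projectivization K (Fin (n + 1) → K)}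
  {Ψ : Fin (n + 1) → MvPolynomial (Fin (n + 1) ⊕ A) (algebraicClosure k K)}
  {C : Set (MvPolynomial (Fin (n + 1)) (algebraicClosure k K))}

/-- The return sets. -/
theorem return_set (hF : LargeTrdeg d k δ F) (hX : TrdegLE (algebraicClosure k K) X m)
    (hΦ : GivenBy X Φ Ψ F) (hC : ∀ G ∈ C, ∃ e, G.IsHomogeneous e) (hc : FibresCodim X Ψ C c)
    (hd : ∀ B : Finset A, B.card = c → 2 * m + 2 + δ ≤ ∑ a ∈ B, (d a + 1))
    {α : Projectivization K (Fin (n + 1) → K)} (hα : α ∈ X) :
    ({r : ℕ | Φ^[r] α ∈ zeros C}.Infinite → ∃ i j, i < j ∧ Φ^[i] α = Φ^[j] α) ∧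
    ∃ S : Finset (ℕ × ℕ), {r : ℕ | Φ^[r] α ∈ zeros C} =
      {r | ∃ t ∈ S, ∃ l, r = t.1 + t.2 * l} := by
  classical
  have hdec : DecidableEq K := Classical.decEq K
  have hiX : ∀ r, Φ^[r] α ∈ X := by
    intro r
    induction r with
    | zero => exact hα
    | succ r ih =>
      rw [Function.iterate_succ_apply']
      have h1 := hΦ (Φ^[r] α).rep (Φ^[r] α).rep_nonzero (by
        rw [Projectivization.mk_rep]; exact ih)
      rw [Projectivization.mk_rep] at h1
      exact h1.1
  -- a field of definition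
  obtain ⟨T, hT⟩ : ∃ T : Finset K, T = Finset.univ.image α.rep ∪
    Finset.univ.biUnion fun a => (F a).support.image fun u => (F a).coeff u := ⟨_, rfl⟩
  have hFL : ∀ a u, (F a).coeff u ∈ IntermediateField.adjoin (algebraicClosure k K)
      (T : Set K) := by
    intro a u
    by_cases hu : (F a).coeff u = 0
    · rw [hu]
      exact zero_mem _
    · refine IntermediateField.subset_adjoin _ _ ?_
      rw [hT]
      exact Finset.mem_coe.2 (Finset.mem_union_right _ (Finset.mem_biUnion.2
        ⟨a, Finset.mem_univ _, Finset.mem_image.2 ⟨u, mem_support_iff.2 hu, rfl⟩⟩))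
  have hover : ∀ r, Over (IntermediateField.adjoin (algebraicClosure k K) (T : Set K))
      (Φ^[r] α) := by
    intro r
    induction r with
    | zero =>
      refine ⟨α.rep, α.rep_nonzero, fun s => IntermediateField.subset_adjoin _ _ ?_,
        (Projectivization.mk_rep α).symm⟩
      rw [hT]
      exact Finset.mem_coe.2 (Finset.mem_union_left _ (Finset.mem_image.2
        ⟨s, Finset.mem_univ _, rfl⟩))
    | succ r ih =>
      rw [Function.iterate_succ_apply']
      exact Over.map hΦ hFL (hiX r) ih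
  have hfin := finite_pre hF hX hΦ hC hc hd T
  have hper : {r : ℕ | Φ^[r] α ∈ zeros C}.Infinite → ∃ i j, i < j ∧ Φ^[i] α = Φ^[j] α := by
    intro hinf
    have h1 : {r : ℕ | Φ^[r + 1] α ∈ zeros C}.Infinite := by
      intro hcon
      apply hinf
      refine ((hcon.image fun r => r + 1).union (Set.finite_singleton 0)).subset ?_
      intro r hr
      cases r with
      | zero => exact Or.inr rfl
      | succ r => exact Or.inl ⟨r, hr, rfl⟩
    obtain ⟨i, -, j, -, hij, h2⟩ := h1.exists_ne_map_eq_of_mapsTo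
      (f := fun r => Φ^[r] α) (t := {p ∈ X | Over (IntermediateField.adjoin
        (algebraicClosure k K) (T : Set K)) p ∧ Φ p ∈ zeros C}) (fun r hr => by
        refine ⟨hiX r, hover r, ?_⟩
        have h3 : Φ^[r + 1] α ∈ zeros C := hr
        rw [Function.iterate_succ_apply'] at h3
        exact h3) hfin
    rcases lt_or_gt_of_ne hij with h3 | h3
    · exact ⟨i, j, h3, h2⟩
    · exact ⟨j, i, h3, h2.symm⟩
  refine ⟨hper, ?_⟩
  by_cases hinf : {r : ℕ | Φ^[r] α ∈ zeros C}.Infinite
  swap
  · exact union_finite (Set.not_infinite.1 hinf)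
  obtain ⟨i, j, hij, h1⟩ := hper hinf
  refine union_progressions (i := i) (r := j - i) (by omega) fun l hl => ?_
  have h2 : Φ^[l + (j - i)] α = Φ^[l] α := by
    have h3 : l + (j - i) = (l - i) + j := by omega
    have h4 : l = (l - i) + i := by omega
    rw [h3, Function.iterate_add_apply, ← h1, ← Function.iterate_add_apply, ← h4]
  rw [Set.mem_ofPred_eq, Set.mem_ofPred_eq, h2]

end dml

end Pool.Agent.V7H43.GD
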