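import Pool.Agent.V7H43.GD.Setup
import Pool.Agent.V7H76.MP.Main

/-!
Subvarieties with a generic point that satisfies the condition are of general type, where some
blocks of the coordinates of the generic point are constant.
-/

set_option autoImplicit false

open MvPolynomial FF Pool.Agent.W603.LV Pool.Agent.W603.PV Pool.Agent.TH145.GH
open Pool.Agent.TH145.GC (Ev exists_minor)
open Pool.Agent.TH145.GE (ev dF_ev)
open Pool.Agent.TH145.GF (vE det_dec der_comb exists_coord_basis exists_dualsG)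
open Pool.Agent.W602.GT Pool.Agent.TH145.MG Pool.Agent.V7H76.MP Pool.Agent.V7H43.GU

namespace Pool.Agent.V7H43.GD

/-- The order of a point with constant coordinates. -/
theorem pord_const {k K : Type} [Field k] [Field K] [Algebra k K] (P : Place k K)
    {n : ℕ} {ι : Type} [DecidableEq ι] {g : Fin (n + 1) → ι}
    {x : Fin (n + 1) → K} {i : ι} {l : Fin (n + 1)} (hl : g l = i) (hx : x l = 1)
    (hc : ∀ j, g j = i → ∃ c : k, x j = algebraMap k K c) : pord P (bl g i x) = 0 := by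
  have h1 : bl g i x l = 1 := by
    unfold bl
    rw [if_pos hl, hx]
  obtain ⟨j, hj, hjP⟩ := exists_pord P (f := bl g i x) ⟨l, by rw [h1]; exact one_ne_zero⟩
  rw [← hjP]
  obtain ⟨c, hc'⟩ : ∃ c : k, bl g i x j = algebraMap k K c := by
    unfold bl
    by_cases hj : g j = i
    · rw [if_pos hj]
      exact hc j hj
    · rw [if_neg hj]
      exact ⟨0, (map_zero _).symm⟩
  rw [hc'] at hj ⊢
  exact P.ord_const fun h0 => hj (by rw [h0, map_zero])

open scoped Classical in
/-- The functionals at a point that satisfies the condition. -/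
theorem PtCondS.data {k0 L : Type} [Field k0] [Field L] [Algebra k0 L] [CharZero L] {n : ℕ}
    {A X ι : Type} [DecidableEq ι] [Fintype ι] [Fintype A] {g : Fin (n + 1) → ι}
    {dg : A → ι → ℕ} {D : A → (Fin (n + 1) →₀ ℕ) → Derivation ℤ L L} {E : X → Derivation ℤ L L}
    (hDk : ∀ a I (r : k0), D a I (algebraMap k0 L r) = 0)
    (hEk : ∀ ξ (r : k0), E ξ (algebraMap k0 L r) = 0)
    {F : A → MvPolynomial (Fin (n + 1)) L}
    (hDF : DualE g F dg D fun _ _ => 0)
    (hEF : ∀ ξ b u, E ξ ((F b).coeff u) = 0)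
    {l0 : ι → Fin (n + 1)} (hg0 : ∀ i, g (l0 i) = i) {x : Fin (n + 1) → L}
    (hx0 : ∀ i, x (l0 i) = 1) {c : ι → ℕ} {w : ℕ} {T : Set ι}
    (hP : PtCondS g k0 dg T c w x fun a => eval x (F a)) :
    ∃ (m : ℕ) (μ : ι → ℕ) (B : Type) (_ : Fintype B) (β : B → A)
      (Φ : B → (Fin (n + 1) → L) →ₗ[L] L),
      (∀ i ∈ T, m + μ i + c i ≤ ∑ a, dg (β a) i + Fintype.card B + w) ∧
      Module.finrank L (Full g (dg ∘ β) (D ∘ β) E x) ≤ m + Fintype.card ι ∧
      (∀ i ∈ T, Module.finrank L ((Full g (dg ∘ β) (D ∘ β) E x).map (blkL L g i)) ≤ μ i + 1) ∧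
      Fun g (dg ∘ β) (D ∘ β) E x Φ := by
  obtain ⟨m, μ, J, hm, hμ, hJ, hd⟩ := hP
  have h2 := full_le_tanM (g := g) (dg := dg ∘ fun a : {a // a ∈ J} => a.1)
    (D := D ∘ fun a : {a // a ∈ J} => a.1) (E := E) (k0 := k0) (fun a I r => hDk a.1 I r) hEk x
  rw [← coordsM_eq hg0 hx0] at hm
  have hμ' : ∀ i ∈ T, Algebra.trdeg k0 (coords k0 (bl g i x)) ≤ μ i := fun i hi => by
    rw [coords_bl_eq hg0 hx0 i]
    exact hμ i hi
  have h1 : ∀ s : {a // a ∈ J}, ∃ Φ : (Fin (n + 1) → L) →ₗ[L] L, (∀ i, Φ (bl g i x) = 0) ∧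
      (∀ ξ, Φ (ev (E ξ) x) = 0) ∧
      ∀ (t : {a // a ∈ J}) I, mdeg g I = dg t.1 →
        Φ (fun l => D t.1 I (x l)) = -if t = s then mon x I else 0 := by
    intro s
    obtain ⟨lam, h1, h2⟩ := exists_relation (k0 := k0) (Sum.elim x fun a => eval x (F a))
      (Sum.inr '' (J : Set A)) (z := eval x (F s.1)) (by
        have h5 : Sum.elim x (fun a => eval x (F a)) '' (Sum.inr '' (J : Set A))ᶜ =
            Set.range x ∪ (fun a => eval x (F a)) '' {b | b ∉ J} := by
          ext z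
          constructor
          · rintro ⟨l | b, hb, rfl⟩
            · exact Or.inl ⟨l, rfl⟩
            · refine Or.inr ⟨b, fun hbJ => hb ⟨b, hbJ, rfl⟩, rfl⟩
          · rintro (⟨l, rfl⟩ | ⟨b, hb, rfl⟩)
            · refine ⟨Sum.inl l, ?_, rfl⟩
              rintro ⟨b, -, h⟩
              exact absurd h (by simp)
            · refine ⟨Sum.inr b, ?_, rfl⟩
              rintro ⟨c, hc, h⟩
              exact hb (Sum.inr_injective h ▸ hc)
        rw [h5]
        exact hJ s.1 s.2)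
    have h1' : ∀ b ∈ J, lam (Sum.inr b) = 0 := fun b hb => h1 _ ⟨b, hb, rfl⟩
    obtain ⟨Φ, h3, h4⟩ := exists_functional hg0 hx0 F s.1 lam
    refine ⟨Φ, h3, fun ξ => ?_, fun t I hI => ?_⟩
    · have h5 : ∀ a, ∑ u ∈ (F a).support, E ξ ((F a).coeff u) * mon x u = 0 := fun a =>
        Finset.sum_eq_zero fun u _ => by rw [hEF, zero_mul]
      have h6 := h4 (E ξ) (h2 _ (hEk ξ))
      rw [h5, neg_zero, zero_add, Finset.sum_eq_zero fun a _ => by rw [h5, mul_zero]] at h6
      exact h6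
    · have h5 : ∀ a, ∑ u ∈ (F a).support, D t.1 I ((F a).coeff u) * mon x u =
          if t.1 = a then mon x I else 0 := fun a => by
        rw [hDF t.1 a I hI x, Nat.cast_zero, zero_mul, sub_zero]
      rw [h4 (D t.1 I) (h2 _ (hDk t.1 I)), h5, Finset.sum_eq_zero, add_zero]
      · congr 1
        by_cases hts : t = s
        · rw [if_pos hts, if_pos (congrArg Subtype.val hts)]
        · rw [if_neg hts, if_neg fun h => hts (Subtype.ext h)]
      · intro a _
        rw [h5]
        by_cases ha : t.1 = a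
        · rw [h1' a (ha ▸ t.2), zero_mul]
        · rw [if_neg ha, mul_zero]
  choose Φ h3 h4 h5 using h1
  refine ⟨m, μ, {a // a ∈ J}, inferInstance, fun a => a.1, Φ, fun i hi => ?_,
    (Submodule.finrank_mono h2).trans (tanM_rank hg0 hx0 hm), fun i hi =>
    (Submodule.finrank_mono (Submodule.map_mono h2)).trans
      (tanM_block (hg0 i) (hx0 i) (hμ' i hi)),
    fun s i => h3 s i, fun s ξ => h4 s ξ, fun t s I hI => (h5 s t I hI).trans (by congr)⟩
  have h6 := hd i hi
  rw [Finset.sum_add_distrib, ← Finset.card_eq_sum_ones,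
    ← Finset.sum_coe_sort J (fun a => dg a i)] at h6
  rw [Fintype.card_coe]
  exact h6

open scoped Classical in
/-- Subvarieties with a generic point that satisfies the condition are of general type. -/
theorem general_US {k0 K L : Type} [Field k0] [Field K] [Field L] [Algebra k0 K] [Algebra K L]
    [Algebra k0 L] [IsScalarTower k0 K L]
    [IsAlgClosed K] [CharZero K] {n w : ℕ} {A ι : Type} [DecidableEq ι] [Fintype ι]
    {g : Fin (n + 1) → ι} [Fintype A] {dg : A → ι → ℕ} {c : ι → ℕ}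
    (F : A → MvPolynomial (Fin (n + 1)) K) (hF : ∀ a, MH g (F a) (dg a))
    (hind : AlgebraicIndependent k0 fun p : Cf g dg => (F p.1).coeff p.2.1)
    (hw : 0 < w) (T : Set ι) (S : Set ι) (hST : S ⊆ T) (hc : ∀ i ∈ T, 1 ≤ c i)
    (hcS : ∀ i ∈ S, 2 ≤ c i)
    (htr : Algebra.trdeg K L = w) (x' : Fin (n + 1) → L) (hx0 : ∀ i, ∃ s, g s = i ∧ x' s = 1)
    (hfix : ∀ s, g s ∉ T → ∃ r : K, x' s = algebraMap K L r)
    (hgen : Algebra.IsAlgebraic (IntermediateField.adjoin K (x' '' {s | g s ∈ S})) L)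
    (hP : PtCondS g k0 dg T c w x' fun a => aeval x' (F a)) :
    GeneralType K L w := by
  have hL : CharZero L := charZero_of_injective_algebraMap (algebraMap K L).injective
  choose l0 hg0 hx1 using hx0
  obtain ⟨xS, hxS⟩ : ∃ xS : Fin (n + 1) → L, ∀ s, xS s = if g s ∈ S then x' s else 0 :=
    ⟨_, fun _ => rfl⟩
  obtain ⟨l, hl, hlS⟩ : ∃ l : Fin w → Fin (n + 1), (IsTranscendenceBasis K fun i => x' (l i)) ∧
      ∀ j, g (l j) ∈ S := by
    have h1 : IntermediateField.adjoin K (x' '' {s | g s ∈ S}) ≤ coords K xS := by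
      rw [IntermediateField.adjoin_le_iff]
      rintro _ ⟨s, hs, rfl⟩
      have hs' : g s ∈ S := hs
      refine IntermediateField.subset_adjoin _ _ ⟨s, l0 (g s), ?_, ?_⟩
      · rw [hxS, hg0, if_pos hs', hx1]
        exact one_ne_zero
      · rw [hxS, hxS, hg0, if_pos hs', if_pos hs', hx1, div_one]
    obtain ⟨l, hl⟩ := exists_coord_basis htr (x := xS)
      ⟨fun z => Pool.Agent.TH145.MF.alg_mono
        (F1 := (IntermediateField.adjoin K (x' '' {s | g s ∈ S})).toSubfield)
        (F2 := (coords K xS).toSubfield) (fun z hz => h1 hz) (hgen.isAlgebraic z)⟩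
    have hlS : ∀ j, g (l j) ∈ S := by
      intro j
      by_contra hcon
      have h2 := hl.1.transcendental j
      rw [hxS, if_neg hcon] at h2
      exact h2 (by
        have := isAlgebraic_algebraMap (R := K) (A := L) 0
        rwa [map_zero] at this)
    refine ⟨l, ?_, hlS⟩
    have h2 : (fun i => x' (l i)) = fun i => xS (l i) := by
      funext i
      rw [hxS, if_pos (hlS i)]
    rw [h2]
    exact hl
  obtain ⟨t, ht⟩ : ∃ t : Fin w → L, ∀ i, t i = x' (l i) := ⟨_, fun _ => rfl⟩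
  have htb : IsTranscendenceBasis K t := by
    have : t = fun i => x' (l i) := funext ht
    rw [this]
    exact hl
  -- the derivations
  obtain ⟨DC, hDCS, hDCC⟩ := exists_dualsG htb _ hind
  obtain ⟨D0, hD0⟩ : ∃ D0 : A → (Fin (n + 1) →₀ ℕ) → Derivation ℤ L L, ∀ a I, D0 a I =
      if h : mdeg g I = dg a then (DC ⟨a, ⟨I, h⟩⟩).restrictScalars ℤ else 0 :=
    ⟨_, fun _ _ => rfl⟩
  have hD0S : ∀ a I, Sem K (D0 a I) := by
    intro a I
    rw [hD0]
    split_ifs with h
    · exact hDCS _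
    · exact fun r => ⟨0, by rw [map_zero]; rfl⟩
  have hD0k : ∀ a I (r : k0), D0 a I (algebraMap k0 L r) = 0 := by
    intro a I r
    rw [hD0]
    split_ifs with h
    · exact (DC ⟨a, ⟨I, h⟩⟩).map_algebraMap r
    · rfl
  obtain ⟨H, hH⟩ : ∃ H : A → MvPolynomial (Fin (n + 1)) L, H = fun a =>
    map (algebraMap K L) (F a) := ⟨_, rfl⟩
  have hHh : ∀ a, MH g (H a) (dg a) := fun a => by
    rw [hH]
    exact (hF a).map g _
  have hD0D : Dual g H dg D0 := by
    intro a b I J hI hJ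
    have h1 : (H b).coeff J = algebraMap K L ((F b).coeff J) := by
      rw [hH, coeff_map]
    have h2 := hDCC ⟨a, ⟨I, hI⟩⟩ ⟨b, ⟨J, hJ⟩⟩
    have h3 : D0 a I ((H b).coeff J) =
        DC ⟨a, ⟨I, hI⟩⟩ (algebraMap K L ((F b).coeff J)) := by
      rw [h1, hD0, dif_pos hI]
      rfl
    constructor
    · intro hab hIJ
      rw [h3]
      refine h2.trans (if_pos ?_)
      subst hab
      subst hIJ
      rfl
    · intro hIJ
      rw [h3]
      refine h2.trans (if_neg ?_)
      intro h4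
      have h5 : a = b := congrArg Sigma.fst h4
      subst h5
      rcases hIJ with h | h
      · exact h rfl
      · apply h
        have h6 := eq_of_heq (Sigma.mk.inj_iff.1 h4).2
        exact congrArg Subtype.val h6
  have hFK : ∀ (δ : Derivation K L L) a u, δ ((H a).coeff u) = 0 := fun δ a u => by
    rw [hH, coeff_map]
    exact δ.map_algebraMap _
  have hP' : PtCondS g k0 dg T c w x' fun a => eval x' (H a) := by
    have h1 : (fun a => eval x' (H a)) = fun a => aeval x' (F a) := by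
      funext a
      rw [hH]
      dsimp only
      rw [eval_map]
      rfl
    rw [h1]
    exact hP
  -- the vertical derivations
  obtain ⟨E, hE⟩ : ∃ E : Fin w → Derivation K L L, ∀ i j, E i (t j) = if i = j then 1 else 0 := by
    obtain ⟨E, hE⟩ := exists_dual htb
    refine ⟨E, fun i j => ?_⟩
    have := congrFun (congrFun hE i) j
    rw [Matrix.of_apply, Matrix.one_apply] at this
    rw [this]
  have hx0' : ∀ i, x' (l0 i) ≠ 0 := fun i => by rw [hx1]; exact one_ne_zero
  -- the functionals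
  obtain ⟨m, μ, B, _, β, Φ, hd, hrk, hblk, hΦ⟩ := PtCondS.data (k0 := k0) (g := g) (D := D0)
    (E := vE E) hD0k (fun i r => by
      change E i (algebraMap k0 L r) = 0
      rw [IsScalarTower.algebraMap_apply k0 K L]
      exact (E i).map_algebraMap _) (hD0D.dualE hHh)
    (fun i b u => hFK (E i) b u) hg0 hx1 hP'
  obtain ⟨dg', hdg'⟩ : ∃ dg' : B → ι → ℕ, dg' = dg ∘ β := ⟨_, rfl⟩
  obtain ⟨D, hD⟩ : ∃ D : B → (Fin (n + 1) →₀ ℕ) → Derivation ℤ L L, D = D0 ∘ β := ⟨_, rfl⟩
  rw [← hdg', ← hD] at hrk hblk hΦ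
  have hDS : ∀ a I, Sem K (D a I) := fun a J => by
    rw [hD]
    exact hD0S (β a) J
  have hd' : ∀ i ∈ T, m + μ i + c i ≤ ∑ a, dg' a i + Fintype.card B + w := fun i hi => by
    rw [hdg']
    exact hd i hi
  have hindep : LinearIndepOn L (vv g dg' D (vE E) x' (base dg' l0))
      (Vert ι (Fin w) n B) := by
    obtain ⟨f, hf1, hf2⟩ : ∃ f : ι ⊕ Fin w → Ix ι (Fin w) n B ⊕ B,
      (∀ i, f (Sum.inl i) = Sum.inl (Sum.inl i)) ∧
      ∀ j, f (Sum.inr j) = Sum.inl (Sum.inr (Sum.inl j)) :=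
      ⟨Sum.elim (fun i => Sum.inl (Sum.inl i)) (fun j => Sum.inl (Sum.inr (Sum.inl j))),
        fun _ => rfl, fun _ => rfl⟩
    have h1 : Vert ι (Fin w) n B = f '' Set.univ := by
      ext r
      constructor
      · rintro (⟨i, rfl⟩ | ⟨j, rfl⟩)
        · exact ⟨Sum.inl i, trivial, hf1 i⟩
        · exact ⟨Sum.inr j, trivial, hf2 j⟩
      · rintro ⟨(i | j), -, rfl⟩
        · exact Or.inl ⟨i, hf1 i⟩
        · exact Or.inr ⟨j, hf2 j⟩
    rw [h1]
    refine LinearIndepOn.image_of_comp _ _ ?_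
    rw [linearIndepOn_univ_iff, Fintype.linearIndependent_iff]
    intro r hr
    have h2 : ∀ q, r (Sum.inl (g q)) * x' q + ∑ j, r (Sum.inr j) * E j (x' q) = 0 := by
      intro q
      have h3 := congrFun hr q
      rw [Fintype.sum_sum_type, Pi.add_apply, Finset.sum_apply, Finset.sum_apply] at h3
      simp only [Function.comp_apply, hf1, hf2, Pi.smul_apply, smul_eq_mul, Pi.zero_apply] at h3
      have h4 : ∑ i, r (Sum.inl i) * vv g dg' D (vE E) x' (base dg' l0) (Sum.inl (Sum.inl i)) q =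
          r (Sum.inl (g q)) * x' q := by
        rw [Finset.sum_eq_single (g q)]
        · simp only [vv, wv, bl]
          rw [if_pos trivial]
        · intro i _ hi
          simp only [vv, wv, bl]
          rw [if_neg (Ne.symm hi), mul_zero]
        · intro h; exact absurd (Finset.mem_univ _) h
      rw [h4] at h3
      exact h3
    have h3 : ∀ i, r (Sum.inl i) = 0 := by
      intro i
      have h4 := h2 (l0 i)
      rw [hx1, hg0, mul_one, Finset.sum_eq_zero fun j _ => by
        rw [(E j).map_one_eq_zero, mul_zero], add_zero] at h4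
      exact h4
    rintro (i | j)
    · exact h3 i
    · have h4 := h2 (l j)
      rw [h3, zero_mul, zero_add, ← ht, Finset.sum_eq_single j] at h4
      · rwa [hE, if_pos rfl, mul_one] at h4
      · intro i _ hi
        rw [hE, if_neg hi, mul_zero]
      · intro h; exact absurd (Finset.mem_univ _) h
  obtain ⟨b, hbV, hbC, hbi, hspan, hcard⟩ := exists_rowsW hΦ hg0 hx0' hindep
  obtain ⟨τ, hτ⟩ := exists_minor _ hbi
  have hdet : (mx g dg' D (vE E) x' (base dg' l0) b τ).det ≠ 0 := by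
    rw [Ne, det_dec _ _ (mx g dg' D (vE E) x' (base dg' l0) b τ)]
    exact hτ
  have hbp : ∀ i, Sum.inl (Sum.inl i) ∈ b := fun i => hbV _ (Or.inl ⟨i, rfl⟩)
  have htot : ∀ i ∈ T, tot (Fin w) g b τ i ≤ ∑ a, dg' a i ∧
      (i ∈ S → tot (Fin w) g b τ i + 1 ≤ ∑ a, dg' a i) := by
    intro i hi
    have h1 := tot_le (fun a => mdeg_base g dg' hg0 a) τ hbC hbV (by
      rw [Ne, det_dec _ _ (mx g dg' D (vE E) x' (base dg' l0) b τ)]
      exact hdet) (hcard ▸ hrk) i (hblk i hi)
    have h2 := hd' i hi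
    have h3 := hc i hi
    rw [Fintype.card_fin] at h1
    refine ⟨by omega, fun hi => ?_⟩
    have h4 := hcS i hi
    omega
  -- the forms
  obtain ⟨Z, hZ⟩ : ∃ Z, Z = ∏ a, mon x' (base dg' l0 a) := ⟨_, rfl⟩
  have hZ0 : Z ≠ 0 := by
    rw [hZ]
    refine Finset.prod_ne_zero_iff.2 fun a _ => ?_
    rw [mon_base]
    exact Finset.prod_ne_zero_iff.2 fun i _ => pow_ne_zero _ (hx0' i)
  obtain ⟨lj, hlj⟩ : ∃ lj : Fin (w + 1) → Fin (n + 1), lj = Fin.cons (l0 (g (l ⟨0, hw⟩))) l :=
    ⟨_, rfl⟩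
  have hljS : ∀ j, g (lj j) ∈ S := by
    intro j
    refine Fin.cases ?_ (fun j => ?_) j
    · rw [hlj, Fin.cons_zero, hg0]
      exact hlS _
    · rw [hlj, Fin.cons_succ]
      exact hlS _
  obtain ⟨ω, hω⟩ : ∃ ω : Fin (w + 1) → (Fin w → Derivation K L L) → L, ∀ j Dd, ω j Dd =
    (mx g dg' D (vE Dd) x' (base dg' l0) b τ).det / Z * x' (lj j) :=
    ⟨_, fun _ _ => rfl⟩
  have hlin : ∀ (M : Matrix (Fin w) (Fin w) L) (D1 D2 : Fin w → Derivation K L L),
      (∀ i f, D1 i f = ∑ j, M i j * D2 j f) → ∀ j, ω j D1 = M.det * ω j D2 := by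
    intro M D1 D2 h j
    have h1 := det_lin (g := g) (dg := dg') (D := D) (E := vE D2) (E' := vE D1) (M := M)
      h x' hbV τ (base dg' l0)
    have h2 : (mx g dg' D (vE D1) x' (base dg' l0) b τ).det =
        M.det * (mx g dg' D (vE D2) x' (base dg' l0) b τ).det := by
      exact (det_dec _ _ _).trans (h1.trans (congrArg₂ (· * ·) (det_dec _ _ _) (det_dec _ _ _)))
    rw [hω, hω, h2]
    ring
  have hωE : ω 0 E ≠ 0 := by
    rw [hω, hlj, Fin.cons_zero, hx1, mul_one]
    exact div_ne_zero hdet hZ0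
  -- the regularity
  have hreg : ∀ (Q : Place K L), Divisorial w Q → ∀ (Dd : Fin w → Derivation K L L),
      (∀ i, DerReg Q (Dd i)) → ∀ j, Q.Reg (ω j Dd) := by
    intro Q hQ Dd hDd j
    obtain ⟨M, hM⟩ : ∃ M : Matrix (Fin w) (Fin w) L, M = Matrix.of fun i j => Dd i (t j) := ⟨_, rfl⟩
    have hωM := hlin M Dd E (fun i f => by
      rw [der_comb htb hE (Dd i) f, hM]
      rfl) j
    by_cases hM0 : M.det = 0
    · rw [hωM, hM0, zero_mul]
      exact Q.reg_zero
    by_cases hxj : x' (lj j) = 0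
    · rw [hω, hxj, mul_zero]
      exact Q.reg_zero
    have hMd : (Matrix.of fun i j => Dd i (t j)).det = M.det := by
      rw [hM]
    have h1 := ord_theta Q hg0 hx0' τ hbC hbp hspan (by
      rw [Ne, det_dec _ _ (mx g dg' D (vE E) x' (base dg' l0) b τ)]
      exact hdet) (B := -Q.ord M.det)
      (fun x'' e1 hx'' hge1 hdet' => by
        have h2 := ord_det_local hw htr hQ hDS htb hE (Dd := Dd) hDd (by
          rw [Ne, hMd]
          exact hM0) hx'' hbV τ (base dg' e1) hdet'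
        have h3 : Q.ord (Matrix.of fun i j => Dd i (t j)).det = Q.ord M.det := by
          rw [hM]
        linarith)
    rw [← hZ] at h1
    have hdz : (mx g dg' D (vE E) x' (base dg' l0) b τ).det / Z ≠ 0 :=
      div_ne_zero hdet hZ0
    right
    rw [hωM, hω, Q.ord_mul hM0 (mul_ne_zero hdz hxj), Q.ord_mul hdz hxj]
    have hbl : ∀ i s, g s = i → bl g i x' s = x' s := fun i s hs => by
      unfold bl
      rw [if_pos hs]
    have h3 : pord Q (bl g (g (lj j)) x') ≤ Q.ord (x' (lj j)) := by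
      have := pord_le Q (f := bl g (g (lj j)) x') (j := lj j) (by rwa [hbl _ _ rfl])
      rwa [hbl _ _ rfl] at this
    have h4 : ∀ i, pord Q (bl g i x') ≤ 0 := by
      intro i
      have := pord_le Q (f := bl g i x') (j := l0 i) (by rw [hbl _ _ (hg0 i)]; exact hx0' i)
      rwa [hbl _ _ (hg0 i), hx1, Q.ord_one] at this
    have h6 : 0 ≤ ∑ i, ((tot (Fin w) g b τ i : ℤ) - (∑ a, dg' a i : ℕ)) * pord Q (bl g i x') +
        pord Q (bl g (g (lj j)) x') := by
      rw [← Finset.add_sum_erase _ _ (Finset.mem_univ (g (lj j)))]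
      have h5 : 0 ≤ ∑ i ∈ Finset.univ.erase (g (lj j)),
          ((tot (Fin w) g b τ i : ℤ) - (∑ a, dg' a i : ℕ)) * pord Q (bl g i x') := by
        refine Finset.sum_nonneg fun i _ => ?_
        by_cases hi : i ∈ T
        · have h7 : ((tot (Fin w) g b τ i : ℕ) : ℤ) ≤ (∑ a, dg' a i : ℕ) := by
            exact_mod_cast (htot i hi).1
          exact mul_nonneg_of_nonpos_of_nonpos (by linarith) (h4 i)
        · rw [pord_const Q (hg0 i) (hx1 i) (fun s hs => hfix s (by rw [hs]; exact hi)), mul_zero]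
      have h7 : ((tot (Fin w) g b τ (g (lj j)) : ℕ) : ℤ) + 1 ≤ (∑ a, dg' a (g (lj j)) : ℕ) := by
        exact_mod_cast (htot _ (hST (hljS j))).2 (hljS j)
      have h8 : 0 ≤ (((tot (Fin w) g b τ (g (lj j)) : ℕ) : ℤ) + 1 -
          (∑ a, dg' a (g (lj j)) : ℕ)) * pord Q (bl g (g (lj j)) x') :=
        mul_nonneg_of_nonpos_of_nonpos (by linarith) (h4 _)
      linarith
    linarith
  refine ⟨htr, 1, one_pos, ω, fun j M Dd => ?_, fun Q hQ j Dd hDd => hreg Q hQ Dd hDd j, E, hωE,
    ?_⟩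
  · rw [pow_one]
    refine hlin M _ Dd (fun i f => ?_) j
    rw [← Derivation.coeFnAddMonoidHom_apply, map_sum, Finset.sum_apply]
    rfl
  · have h1 : (fun i : Fin w => ω i.succ E / ω 0 E) = t := by
      funext i
      have h2 : (mx g dg' D (vE E) x' (base dg' l0) b τ).det / Z ≠ 0 :=
        div_ne_zero hdet hZ0
      rw [hω, hω, hlj, Fin.cons_succ, Fin.cons_zero, hx1, mul_one, mul_div_cancel_left₀ _ h2, ht]
    rw [h1]
    exact htb.1

end Pool.Agent.V7H43.GD
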