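import Pool.Agent.V7H43.GU.Pd

/-!
The height inequality, if some of the blocks of the coordinates are fixed.
-/

set_option autoImplicit false

open MvPolynomial FF Pool.Agent.W603.LV Pool.Agent.W603.PV Pool.Agent.TH145.GH
open Pool.Agent.TH145.GC (Ev dF_sub det_row_zero det_scale_gen ord_prod ge_det exists_minor)
open Pool.Agent.TH145.GE (ev dF_ev)
open Pool.Agent.V7H76.MP Pool.Agent.V7H43.GU

namespace Pool.Agent.V7H43.GD

section

variable {k K : Type} [Field k] [Field K] [Algebra k K] {n : ℕ} {A ι : Type} [DecidableEq ι]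
    {g : Fin (n + 1) → ι} [IsAlgClosed k] [CharZero k] [IsFF k K]

/-- Summation of the local inequalities. -/
theorem sum_localS [Fintype ι] {x : Fin (n + 1) → K} (hx : ∀ i, bl g i x ≠ 0) {Θ : K}
    (S : Set ι) {a : ι → ℤ} (ha : ∀ i ∈ S, 1 ≤ a i) {R H : ℤ} (hR : ∀ i, -R ≤ a i) (hR0 : 0 ≤ R)
    (hH : ∀ i ∉ S, pht k (bl g i x) ≤ H) (hH0 : 0 ≤ H)
    {C : Place k K → ℤ} (hC : {P | C P ≠ 0}.Finite)
    (h : ∀ P : Place k K, ∑ i, (- a i) * pord P (bl g i x) - C P ≤ P.ord Θ) {i0 : ι}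
    (hi0 : i0 ∈ S) :
    pht k (bl g i0 x) ≤ ∑ᶠ P, C P + Fintype.card ι * (R * H) := by
  classical
  have hp := fun i => pord_finite (k := k) (Function.ne_iff.1 (hx i))
  obtain ⟨T, hT⟩ := exists_supp (k := k) (Finset.univ : Finset Unit) (fun _ => Θ)
  obtain ⟨U, hU⟩ : ∃ U : Finset (Place k K), U = T ∪ ((Finset.univ.biUnion
    fun i => (hp i).toFinset) ∪ hC.toFinset) := ⟨_, rfl⟩
  have h1 : ∑ P ∈ U, P.ord Θ = 0 := sum_ord_finset _ _ fun P hP => by
    rw [hU]; exact Finset.mem_union_left _ (hT () (Finset.mem_univ _) P hP)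
  have h2 : ∀ i, pht k (bl g i x) = - ∑ P ∈ U, pord P (bl g i x) := by
    intro i
    unfold pht
    rw [finsum_eq_sum_of_support_subset (s := U)]
    intro P hP
    rw [hU]
    exact Finset.mem_union_right _ (Finset.mem_union_left _
      (Finset.mem_biUnion.2 ⟨i, Finset.mem_univ _, (hp i).mem_toFinset.2 hP⟩))
  have h3 : ∑ᶠ P, C P = ∑ P ∈ U, C P := by
    rw [finsum_eq_sum_of_support_subset (s := U)]
    intro P hP
    rw [hU]
    exact Finset.mem_union_right _ (Finset.mem_union_right _ (hC.mem_toFinset.2 hP))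
  have h4 := Finset.sum_le_sum (s := U) fun P _ => h P
  rw [Finset.sum_sub_distrib, Finset.sum_comm, h1, ← h3] at h4
  have h5 : ∀ i, ∑ P ∈ U, (-a i) * pord P (bl g i x) = a i * pht k (bl g i x) := by
    intro i
    rw [← Finset.mul_sum, h2]
    ring
  simp only [h5] at h4
  have hn : ∀ i, 0 ≤ pht k (bl g i x) := fun i => pht_nonneg (k := k) (hx i)
  have h6 : ∀ i, (if i = i0 then pht k (bl g i x) else 0) ≤
      a i * pht k (bl g i x) + R * H := by
    intro i
    by_cases hi : i ∈ S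
    · have h7 := hn i
      have h8 := ha i hi
      have h9 : pht k (bl g i x) ≤ a i * pht k (bl g i x) := by nlinarith
      have h10 : 0 ≤ R * H := mul_nonneg hR0 hH0
      split_ifs
      · linarith
      · linarith
    · rw [if_neg (by rintro rfl; exact hi hi0)]
      have h7 := hn i
      have h8 := hR i
      have h9 : -R * pht k (bl g i x) ≤ a i * pht k (bl g i x) :=
        mul_le_mul_of_nonneg_right h8 h7
      have h10 : R * pht k (bl g i x) ≤ R * H := mul_le_mul_of_nonneg_left (hH i hi) hR0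
      linarith
  have h7 := Finset.sum_le_sum (s := Finset.univ) fun i _ => h6 i
  rw [Finset.sum_ite_eq' Finset.univ i0, if_pos (Finset.mem_univ _), Finset.sum_add_distrib,
    Finset.sum_const, Finset.card_univ, nsmul_eq_mul] at h7
  linarith

omit [IsAlgClosed k] [CharZero k] [IsFF k K] in
theorem tot_le_two {X : Type} (b : Finset (Ix ι X n A ⊕ A)) (τ : b → Fin (n + 1)) (i : ι) :
    tot X g b τ i ≤ 2 * b.card := by
  classical
  unfold tot
  have h1 : ∑ r ∈ b, rt X g r i ≤ b.card := by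
    rw [Finset.card_eq_sum_ones]
    refine Finset.sum_le_sum fun r _ => ?_
    rcases r with (_ | _ | t) | _
    · exact zero_le_one
    · exact zero_le_one
    · simp only [rt]
      by_cases h : g t.2.2.1 = i
      · rw [← h, Pi.single_eq_same]
      · rw [Pi.single_eq_of_ne (Ne.symm h)]
        exact zero_le_one
    · exact zero_le_one
  have h2 : (Finset.univ.filter fun j : b => g (τ j) = i).card ≤ b.card := by
    refine (Finset.card_filter_le _ _).trans ?_
    rw [Finset.card_univ, Fintype.card_coe]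
  omega

end

section ineq

variable {k K : Type} [Field k] [Field K] [Algebra k K] {n : ℕ} {A ι : Type} [DecidableEq ι]
    {g : Fin (n + 1) → ι}
    {F : A → MvPolynomial (Fin (n + 1)) K} {dg : A → ι → ℕ}
    {D : A → (Fin (n + 1) →₀ ℕ) → Derivation ℤ K K} {e : Place k K → ℤ}

variable [IsAlgClosed k] [CharZero k] [IsFF k K]

/-- The height inequality. -/
theorem ineqS [Fintype ι] (hdat : Data k g F dg D e) {B : Type} [Fintype B] (β : B → A)
    {m : ℕ} {μ : ι → ℕ} (S : Set ι)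
    (hdim : ∀ i ∈ S, m + μ i + 2 ≤ ∑ a, dg (β a) i + Fintype.card B)
    {x : Fin (n + 1) → K} (hx0 : ∀ i, ∃ s, g s = i ∧ x s ≠ 0)
    (hrk : Module.finrank K (Full g (dg ∘ β) (D ∘ β) (noE K) x) ≤ m + Fintype.card ι)
    (hblk : ∀ i ∈ S,
      Module.finrank K ((Full g (dg ∘ β) (D ∘ β) (noE K) x).map (blkL K g i)) ≤ μ i + 1)
    {Φ : B → (Fin (n + 1) → K) →ₗ[K] K} (hΦ : Fun g (dg ∘ β) (D ∘ β) (noE K) x Φ)
    {H : ℤ} (hH : ∀ i ∉ S, pht k (bl g i x) ≤ H) (hH0 : 0 ≤ H) {i0 : ι} (hi0 : i0 ∈ S) :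
    pht k (bl g i0 x) ≤ ∑ᶠ P, (n + 1) * e P + Fintype.card ι * (2 * (n + 1) * H) := by
  classical
  choose e0 hge he using hx0
  obtain ⟨dg', hdg'⟩ : ∃ dg' : B → ι → ℕ, dg' = dg ∘ β := ⟨_, rfl⟩
  obtain ⟨D', hD'⟩ : ∃ D' : B → (Fin (n + 1) →₀ ℕ) → Derivation ℤ K K, D' = D ∘ β := ⟨_, rfl⟩
  have hge_vv : ∀ (P : Place k K) {x : Fin (n + 1) → K}, (∀ l, Ge P 0 (x l)) →
      ∀ {I : B → Fin (n + 1) →₀ ℕ}, (∀ a, mdeg g (I a) = dg' a) →
      ∀ (r : Ix ι Empty n B ⊕ B) (l : Fin (n + 1)),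
        Ge P (-e P) (vv g dg' D' (noE K) x I r l) := by
    intro P x hx I hI r l
    have he := hdat.e_nonneg P
    have hl : ∀ (f : K), Ge P 0 f → ∀ a, ∀ I : Fin (n + 1) →₀ ℕ, mdeg g I = dg' a →
        Ge P (-e P) (D' a I f) := fun f hf a I hI => by
      rw [hdg'] at hI
      rw [hD']
      exact hdat.loss P f hf (β a) I hI
    rcases r with (i | ξ | t) | a
    · simp only [vv, wv, bl]
      split_ifs
      · exact (hx l).mono (by omega)
      · exact Ge.zero
    · exact ξ.elim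
    · simp only [vv, wv, tv]
      split_ifs with ht
      · refine Ge.mono (by omega : -e P ≤ 0 + -e P) (Ge.sub ?_ ?_)
        · exact (hx _).mul (hl _ (hx l) _ _ (by rw [mdeg_add, mdeg_single, ht.2]))
        · exact (hx _).mul (hl _ (hx l) _ _ (by
            rw [mdeg_add, mdeg_single, ← ht.1, ht.2]))
      · exact Ge.zero
    · exact hl _ (hx l) a _ (hI a)
  rw [← hdg', ← hD'] at hrk hblk hΦ
  have hdim' : ∀ i ∈ S, m + μ i + 2 ≤ ∑ a, dg' a i + Fintype.card B := fun i hi => by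
    rw [hdg']
    exact hdim i hi
  obtain ⟨b, hbV, hbC, hbi, hspan, hcard⟩ := exists_rowsW hΦ hge he (indep_pos hge he _)
  obtain ⟨τ, hτ⟩ := exists_minor _ hbi
  have hdet : (mx g dg' D' (noE K) x (base dg' e0) b τ).det ≠ 0 := by
    unfold mx
    convert hτ
  have hbp : ∀ i, Sum.inl (Sum.inl i) ∈ b := fun i => hbV _ (Or.inl ⟨i, rfl⟩)
  have htot : ∀ i ∈ S, tot Empty g b τ i + 1 ≤ ∑ a, dg' a i := by
    intro i hi
    have h1 := tot_le (fun a => mdeg_base g dg' hge a) τ hbC hbV hdet (hcard ▸ hrk) i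
      (hblk i hi)
    have h2 := hdim' i hi
    rw [Fintype.card_eq_zero (α := Empty)] at h1
    omega
  have hbn : b.card ≤ n + 1 := by
    rw [← hcard]
    have := Submodule.finrank_le (Full g dg' D' (noE K) x)
    rwa [Module.finrank_fin_fun] at this
  refine sum_localS (k := k) (g := g) (x := x) (Θ := (mx g dg' D' (noE K) x (base dg' e0) b τ).det /
    ∏ a, mon x (base dg' e0 a)) (a := fun i => (∑ a, dg' a i : ℕ) - (tot Empty g b τ i : ℤ))
    (fun i h0 => bl_ne (hge i) (he i) (congrFun h0 _)) S (fun i hi => ?_)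
    (fun i => ?_) (by positivity) hH hH0 ?_ (fun P => ?_) hi0
  · have := htot i hi
    omega
  · have h1 := tot_le_two (g := g) b τ i
    have h2 : 2 * b.card ≤ 2 * (n + 1) := by omega
    have h3 : ((tot Empty g b τ i : ℕ) : ℤ) ≤ ((2 * (n + 1) : ℕ) : ℤ) :=
      Int.ofNat_le.2 (h1.trans h2)
    push_cast at h3
    have h4 : (0 : ℤ) ≤ ((∑ a, dg' a i : ℕ) : ℤ) := Int.natCast_nonneg _
    linarith
  · refine hdat.fin.subset fun P hP => ?_
    intro h0
    apply hP
    rw [h0, mul_zero]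
  · have h1 := ord_theta P hge he τ hbC hbp hspan hdet (B := -((n + 1) * e P))
      (fun x' e1 hx' hge1 hdet' => by
        have h1 := (ge_det P (mx g dg' D' (noE K) x' (base dg' e1) b τ) (c := e P)
          fun r j => hge_vv P hx' (fun a => mdeg_base g dg' hge1 a) _ _).resolve_left hdet'
        rw [Fintype.card_coe] at h1
        have h2 : (b.card : ℤ) * e P ≤ (n + 1) * e P :=
          mul_le_mul_of_nonneg_right (by exact_mod_cast hbn) (hdat.e_nonneg P)
        linarith)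
    simp only [neg_sub]
    rw [sub_eq_add_neg]
    exact h1

end ineq

end Pool.Agent.V7H43.GD
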