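import Pool.Agent.V7H43.GD.Red

/-!
The theorems for systems of forms whose coefficients have a large transcendence degree.
-/

set_option autoImplicit false

open MvPolynomial Pool.Agent.TH145.GH Pool.Agent.TH145.MG
open Pool.Agent.W602.GT
open Pool.Agent.V7H76.MP Pool.Agent.V7H43.GU

namespace Pool.Agent.V7H43.GD

section emb

variable {n δ : ℕ} {ι : Type}

/-- The positions of the old coordinates. -/
def ea (n δ : ℕ) : Fin (n + 1) → Fin (n + 1 + δ + 1) := Fin.castAdd (δ + 1)

/-- The positions of the new coordinates. -/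
def eb (n δ : ℕ) : Fin (δ + 1) → Fin (n + 1 + δ + 1) := Fin.natAdd (n + 1)

/-- The blocks. -/
def eg (g : Fin (n + 1) → ι) (δ : ℕ) : Fin (n + 1 + δ + 1) → Option ι :=
  Fin.addCases (m := n + 1) (n := δ + 1) (fun s => some (g s)) (fun _ => none)

/-- The extended point. -/
def ep {L : Type} [One L] (x : Fin (n + 1) → L) (z : Fin δ → L) : Fin (n + 1 + δ + 1) → L :=
  Fin.addCases (m := n + 1) (n := δ + 1) x (Fin.cons 1 z)

theorem eg_ea (g : Fin (n + 1) → ι) (s : Fin (n + 1)) : eg g δ (ea n δ s) = some (g s) :=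
  Fin.addCases_left (m := n + 1) (n := δ + 1) s

theorem eg_eb (g : Fin (n + 1) → ι) (s : Fin (δ + 1)) : eg g δ (eb n δ s) = none :=
  Fin.addCases_right (m := n + 1) (n := δ + 1) s

theorem ep_ea {L : Type} [One L] (x : Fin (n + 1) → L) (z : Fin δ → L) (s : Fin (n + 1)) :
    ep x z (ea n δ s) = x s :=
  Fin.addCases_left (m := n + 1) (n := δ + 1) s

theorem ep_eb {L : Type} [One L] (x : Fin (n + 1) → L) (z : Fin δ → L) (s : Fin (δ + 1)) :
    ep x z (eb n δ s) = (Fin.cons 1 z : Fin (δ + 1) → L) s :=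
  Fin.addCases_right (m := n + 1) (n := δ + 1) s

theorem ab (t : Fin (n + 1 + δ + 1)) : (∃ s, t = ea n δ s) ∨ ∃ s, t = eb n δ s :=
  Fin.addCases (m := n + 1) (n := δ + 1) (motive := fun t => (∃ s, t = ea n δ s) ∨
    ∃ s, t = eb n δ s) (fun s => Or.inl ⟨s, rfl⟩) (fun s => Or.inr ⟨s, rfl⟩) t

theorem ext_e [DecidableEq ι] (g : Fin (n + 1) → ι) (δ : ℕ) : Ext g (eg g δ) (ea n δ) where
  inj := Fin.castAdd_injective _ _
  blk := eg_ea g
  out := fun t ht => by
    rcases ab t with ⟨s, rfl⟩ | ⟨s, rfl⟩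
    · exact absurd ⟨s, rfl⟩ ht
    · exact eg_eb g s

/-- The condition at the extended point. -/
theorem ptCondS_ep {k K L : Type} [Field k] [Field K] [Field L] [Algebra k L] [Algebra K L]
    {A : Type} [DecidableEq ι] {g : Fin (n + 1) → ι} {x : Fin (n + 1) → L} {z : Fin δ → K}
    {F F' : A → MvPolynomial (Fin (n + 1)) K} {d : A → ι → ℕ}
    (hd : ∀ a u, (F a).coeff u = (F' a).coeff u ∨ ∃ j, z j = (F a).coeff u - (F' a).coeff u)
    {c : ι → ℕ} {w : ℕ} (hP : PtCond g k d (fun i => c i + δ) w x fun a => aeval x (F a)) :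
    PtCondS (eg g δ) k (dE d) (Set.range some) (fun o => o.elim 0 c) w
      (ep x fun j => algebraMap K L (z j))
      fun a => aeval (ep x fun j => algebraMap K L (z j)) (rename (ea n δ) (F' a)) := by
  refine ptCondS_ext (ext_e g δ) (ep_ea x _) (z := z) (fun t ht => ?_) (fun j => ?_) hd hP
  · rcases ab t with ⟨s, rfl⟩ | ⟨s, rfl⟩
    · exact absurd ⟨s, rfl⟩ ht
    · rw [ep_eb]
      refine Fin.cases ?_ (fun j => ?_) s
      · exact Or.inl rfl
      · exact Or.inr ⟨j, rfl⟩
  · exact ⟨eb n δ j.succ, by rw [ep_eb]; rfl⟩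

theorem ep_one {L : Type} [One L] {g : Fin (n + 1) → ι} {x : Fin (n + 1) → L} (z : Fin δ → L)
    (hx : ∀ i, ∃ s, g s = i ∧ x s = 1) : ∀ o, ∃ t, eg g δ t = o ∧ ep x z t = 1 := by
  intro o
  cases o with
  | none => exact ⟨eb n δ 0, eg_eb g 0, by rw [ep_eb]; rfl⟩
  | some i =>
    obtain ⟨s, hs, hxs⟩ := hx i
    exact ⟨ea n δ s, by rw [eg_ea, hs], by rw [ep_ea, hxs]⟩

end emb

/-- The forms `F a` are multihomogeneous of multidegree `d a`, and the field generated over `k` by
all their coefficients together has a transcendence degree at least `N - δ` over `k`, where `N` is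
the number of the coefficients. Moreover, the transcendence degree of `K` over `k` is at
least `N`. -/
def Codim {n : ℕ} {ι A : Type} [DecidableEq ι] (g : Fin (n + 1) → ι) (d : A → ι → ℕ) (k : Type)
    [Field k] {K : Type} [Field K] [Algebra k K] (δ : ℕ)
    (F : A → MvPolynomial (Fin (n + 1)) K) : Prop :=
  (∀ a, MH g (F a) (d a)) ∧
  Cardinal.mk ((a : A) × {I : Fin (n + 1) →₀ ℕ // mdeg g I = d a}) ≤
    Algebra.trdeg k (IntermediateField.adjoin k (Set.range
      fun p : (a : A) × {I : Fin (n + 1) →₀ ℕ // mdeg g I = d a} => (F p.1).coeff p.2.1)) + δ ∧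
  Cardinal.mk ((a : A) × {I : Fin (n + 1) →₀ ℕ // mdeg g I = d a}) ≤ Algebra.trdeg k K

section

variable {k K : Type} [Field k] [Field K] [IsAlgClosed K] [CharZero K] [Algebra k K]
    {n δ : ℕ} {A ι : Type} [DecidableEq ι] [Fintype ι] {g : Fin (n + 1) → ι} [Fintype A]
    {d : A → ι → ℕ} {F : A → MvPolynomial (Fin (n + 1)) K}

/-- Finiteness of the points. -/
theorem fin_codim (hF : Codim g d k δ F) (T : Finset K) :
    {x : Fin (n + 1) → K |
      (∀ j, x j ∈ IntermediateField.adjoin (algebraicClosure k K) (T : Set K)) ∧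
      (∀ i, ∃ s, g s = i ∧ x s = 1) ∧
      PtCond g (algebraicClosure k K) d (fun _ => 2 + δ) 0 x fun a => eval x (F a)}.Finite := by
  classical
  obtain ⟨hMH, h1, h2⟩ := hF
  obtain ⟨F', z, hMH', hind, hdiff⟩ := exists_forms hMH h1 h2
  have hE := ext_e g δ
  have hfin := fin_US (k := k) (dg := dE d) (F := fun a => rename (ea n δ) (F' a))
    (fun a => hE.mh (hMH' a)) (hE.indep hind) (T ∪ Finset.univ.image z) (Set.range some)
    ⟨some (g 0), ⟨g 0, rfl⟩⟩ (ep 0 z)
  have hinj : Function.Injective fun x : Fin (n + 1) → K => ep x z := by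
    intro x y hxy
    funext s
    have h3 := congrFun hxy (ea n δ s)
    dsimp only at h3
    rwa [ep_ea, ep_ea] at h3
  refine (hfin.preimage hinj.injOn).subset ?_
  rintro x ⟨hx, hx0, hP⟩
  refine ⟨fun t => ?_, ep_one z hx0, fun t ht => ?_, ?_⟩
  · have hmono : IntermediateField.adjoin (algebraicClosure k K) (T : Set K) ≤
        IntermediateField.adjoin (algebraicClosure k K)
          ((T ∪ Finset.univ.image z : Finset K) : Set K) := by
      refine IntermediateField.adjoin.mono _ _ _ ?_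
      intro y hy
      exact Finset.mem_coe.2 (Finset.mem_union_left _ hy)
    dsimp only
    rcases ab t with ⟨s, rfl⟩ | ⟨s, rfl⟩
    · rw [ep_ea]
      exact hmono (hx s)
    · rw [ep_eb]
      refine Fin.cases ?_ (fun j => ?_) s
      · rw [Fin.cons_zero]
        exact one_mem _
      · rw [Fin.cons_succ]
        refine IntermediateField.subset_adjoin _ _ ?_
        exact Finset.mem_coe.2 (Finset.mem_union_right _
          (Finset.mem_image.2 ⟨j, Finset.mem_univ _, rfl⟩))
  · dsimp only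
    rcases ab t with ⟨s, rfl⟩ | ⟨s, rfl⟩
    · rw [eg_ea] at ht
      exact absurd ⟨_, rfl⟩ ht
    · rw [ep_eb, ep_eb]
  · have h3 := ptCondS_ep (k := algebraicClosure k K) (L := K) (g := g) (x := x) (z := z)
      (F := F) (F' := F') (d := d) (c := fun _ => 2) (w := 0) hdiff (by
        obtain ⟨m, μ, J, hm, hμ, hJ, hdim⟩ := hP
        refine ⟨m, μ, J, hm, hμ, fun a ha => ?_, hdim⟩
        simp only [aeval_eq_eval]
        exact hJ a ha)
    obtain ⟨m, μ, J, hm, hμ, hJ, hdim⟩ := h3
    refine ⟨m, μ, J, hm, hμ, fun a ha => ?_, ?_⟩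
    · have h4 := hJ a ha
      simp only [aeval_eq_eval] at h4
      exact h4
    · rintro _ ⟨i, rfl⟩
      exact hdim (some i) ⟨i, rfl⟩

/-- Subvarieties with a generic point that satisfies the condition are of general type. -/
theorem general_codim {L : Type} [Field L] [Algebra K L] {w : ℕ} {c : ι → ℕ}
    (hF : Codim g d k δ F) (hw : 0 < w) (S : Set ι) (hc : ∀ i, 1 ≤ c i) (hcS : ∀ i ∈ S, 2 ≤ c i)
    (htr : Algebra.trdeg K L = w) (x : Fin (n + 1) → L) (hx0 : ∀ i, ∃ s, g s = i ∧ x s = 1)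
    (hgen : Algebra.IsAlgebraic (IntermediateField.adjoin K (x '' {s | g s ∈ S})) L)
    (hP : PtCond g (algebraicClosure k K) d (fun i => c i + δ) w x fun a => aeval x (F a)) :
    GeneralType K L w := by
  classical
  obtain ⟨hMH, h1, h2⟩ := hF
  obtain ⟨F', z, hMH', hind, hdiff⟩ := exists_forms hMH h1 h2
  have hE := ext_e g δ
  refine general_US (k0 := algebraicClosure k K) (c := fun o => o.elim 0 c) (dg := dE d)
    (fun a => rename (ea n δ) (F' a)) (fun a => hE.mh (hMH' a))
    (AlgebraicIndependent.algebraicClosure (hE.indep hind)) hw (Set.range some) (some '' S) ?_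
    ?_ ?_ htr (ep x fun j => algebraMap K L (z j)) (ep_one _ hx0) ?_ ?_
    (ptCondS_ep hdiff hP)
  · rintro _ ⟨i, -, rfl⟩
    exact ⟨i, rfl⟩
  · rintro _ ⟨i, rfl⟩
    exact hc i
  · rintro _ ⟨i, hi, rfl⟩
    exact hcS i hi
  · intro t ht
    rcases ab t with ⟨s, rfl⟩ | ⟨s, rfl⟩
    · rw [eg_ea] at ht
      exact absurd ⟨_, rfl⟩ ht
    · rw [ep_eb]
      refine Fin.cases ?_ (fun j => ?_) s
      · exact ⟨1, by rw [Fin.cons_zero, map_one]⟩
      · exact ⟨z j, by rw [Fin.cons_succ]⟩
  · have h3 : (ep x fun j => algebraMap K L (z j)) '' {t | eg g δ t ∈ some '' S} =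
        x '' {s | g s ∈ S} := by
      ext y
      constructor
      · rintro ⟨t, ⟨i, hi, ht⟩, rfl⟩
        rcases ab t with ⟨s, rfl⟩ | ⟨s, rfl⟩
        · rw [eg_ea] at ht
          refine ⟨s, ?_, (ep_ea x _ s).symm⟩
          have h4 := Option.some_injective _ ht
          rw [Set.mem_ofPred_eq, ← h4]
          exact hi
        · rw [eg_eb] at ht
          exact absurd ht (by simp)
      · rintro ⟨s, hs, rfl⟩
        exact ⟨ea n δ s, ⟨g s, hs, (eg_ea g s).symm⟩, ep_ea x _ s⟩
    rw [h3]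
    exact hgen

end

end Pool.Agent.V7H43.GD
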