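import Pool.Agent.V7H43.GD.Ineq

/-!
The data of a point, if some of the blocks of the coordinates are fixed.
-/

set_option autoImplicit false

open MvPolynomial FF Pool.Agent.W603.LV Pool.Agent.W603.PV Pool.Agent.W602.RG
open Pool.Agent.TH145.GH Pool.Agent.TH145.MG Pool.Agent.W602.GT
open Pool.Agent.TH145.GC (Ev exists_minor)
open Pool.Agent.TH145.GE (ev)
open Pool.Agent.V7H76.MP Pool.Agent.V7H43.GU

namespace Pool.Agent.V7H43.GD

/-- The data of a point. There is no condition for the blocks that are not in `S`. -/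
structure PdS {L : Type} [Field L] {n : ℕ} {A ι : Type} [DecidableEq ι] [Fintype ι] [Fintype A]
    (g : Fin (n + 1) → ι) (dg : A → ι → ℕ) (D : A → (Fin (n + 1) →₀ ℕ) → Derivation ℤ L L)
    (x : Fin (n + 1) → L) (y : A → L) (m : ℕ) (μ : ι → ℕ) (J : Finset A) (S : Set ι) : Prop where
  rk : Module.finrank L (Submodule.span L (Set.range (fam g dg D x))) ≤ m + Fintype.card ι
  blk : ∀ i ∈ S, Module.finrank L (Submodule.span L
    (Set.range fun r l => bl g i (fam g dg D x r) l)) ≤ μ i + 1
  rel : ∀ s ∈ J, ∃ lam : Fin (n + 1) ⊕ A → L, (∀ b ∈ J, lam (Sum.inr b) = 0) ∧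
    ∀ a I, D a I (y s) = ∑ p, lam p * D a I (Sum.elim x y p)

section

variable {n : ℕ} {A ι : Type} [DecidableEq ι] [Fintype ι] [Fintype A] {g : Fin (n + 1) → ι}
  {dg : A → ι → ℕ} {m : ℕ} {μ : ι → ℕ} {J : Finset A} {S : Set ι}

/-- The data of a point, from the transcendence degrees. -/
theorem PdS.of_alg {k0 L : Type} [Field k0] [Field L] [Algebra k0 L] [CharZero L]
    {D : A → (Fin (n + 1) →₀ ℕ) → Derivation ℤ L L}
    (hDk : ∀ a I (r : k0), D a I (algebraMap k0 L r) = 0) {x : Fin (n + 1) → L} {y : A → L}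
    {l0 : ι → Fin (n + 1)} (hg : ∀ i, g (l0 i) = i) (hx : ∀ i, x (l0 i) = 1)
    (hm : Algebra.trdeg k0 (IntermediateField.adjoin k0 (Set.range x)) ≤ m)
    (hμ : ∀ i ∈ S, Algebra.trdeg k0 (IntermediateField.adjoin k0 (x '' {s | g s = i})) ≤ μ i)
    (hJ : ∀ a ∈ J, IsAlgebraic (IntermediateField.adjoin k0
      (Set.range x ∪ y '' {b | b ∉ J})) (y a)) :
    PdS g dg D x y m μ J S := by
  have h2 := full_le_tanM (g := g) (dg := dg) (D := D) (E := noE L) (k0 := k0) hDk
    (fun ξ => ξ.elim) x
  refine ⟨?_, fun i hi => ?_, fun s hs => ?_⟩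
  · rw [← full_eq]
    rw [← coordsM_eq hg hx] at hm
    exact (Submodule.finrank_mono h2).trans (tanM_rank hg hx hm)
  · rw [← full_block]
    have h3 := hμ i hi
    rw [← coords_bl_eq hg hx i] at h3
    exact (Submodule.finrank_mono (Submodule.map_mono h2)).trans (tanM_block (hg i) (hx i) h3)
  · obtain ⟨lam, h3, h4⟩ := exists_relation (k0 := k0) (Sum.elim x y) (Sum.inr '' (J : Set A))
      (z := y s) (by
        have h5 : Sum.elim x y '' (Sum.inr '' (J : Set A))ᶜ =
            Set.range x ∪ y '' {b | b ∉ J} := by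
          ext z
          constructor
          · rintro ⟨l | b, hb, rfl⟩
            · exact Or.inl ⟨l, rfl⟩
            · refine Or.inr ⟨b, fun hbJ => hb ⟨b, hbJ, rfl⟩, rfl⟩
          · rintro (⟨l, rfl⟩ | ⟨b, hb, rfl⟩)
            · refine ⟨Sum.inl l, ?_, rfl⟩
              rintro ⟨b, -, h⟩
              exact absurd h (by simp)
            · refine ⟨Sum.inr b, ?_, rfl⟩
              rintro ⟨c, hc, h⟩
              exact hb (Sum.inr_injective h ▸ hc)
        rw [h5]
        exact hJ s hs)
    exact ⟨lam, fun b hb => h3 _ ⟨b, hb, rfl⟩, fun a I => h4 _ (hDk a I)⟩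

/-- The data of a point, in a smaller field. -/
theorem PdS.descend {L L' : Type} [Field L] [Field L'] [Algebra L L']
    {D : A → (Fin (n + 1) →₀ ℕ) → Derivation ℤ L L}
    {D' : A → (Fin (n + 1) →₀ ℕ) → Derivation ℤ L' L'}
    (hD : ∀ a I f, algebraMap L L' (D a I f) = D' a I (algebraMap L L' f))
    {x : Fin (n + 1) → L} {y : A → L}
    (h : PdS g dg D' (fun j => algebraMap L L' (x j)) (fun a => algebraMap L L' (y a)) m μ J S) :
    PdS g dg D x y m μ J S := by
  refine ⟨?_, fun i hi => ?_, fun s hs => ?_⟩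
  · refine rank_ext (algebraMap L L') (fam g dg D x) ?_
    have h1 : (fun r j => algebraMap L L' (fam g dg D x r j)) =
        fam g dg D' (fun j => algebraMap L L' (x j)) := by
      funext r j
      exact fam_map (algebraMap L L') hD x r j
    rw [h1]
    exact h.rk
  · refine rank_ext (algebraMap L L') (fun r l => bl g i (fam g dg D x r) l) ?_
    have h1 : (fun r j => algebraMap L L' (bl g i (fam g dg D x r) j)) =
        fun r j => bl g i (fam g dg D' (fun j => algebraMap L L' (x j)) r) j := by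
      funext r j
      unfold bl
      split_ifs
      · exact fam_map (algebraMap L L') hD x r j
      · exact map_zero _
    rw [h1]
    exact h.blk i hi
  · obtain ⟨lam, h1, h2⟩ := h.rel s hs
    obtain ⟨lam', h3, h4⟩ := rel_descend (L := L) (L' := L')
      (S := A × (Fin (n + 1) →₀ ℕ)) (fun q p => D q.1 q.2 (Sum.elim x y p))
      (fun q => D q.1 q.2 (y s)) (Z := Sum.inr '' (J : Set A)) lam (by
        rintro _ ⟨b, hb, rfl⟩
        exact h1 b hb) (fun q => by
        rw [hD, h2]
        refine Finset.sum_congr rfl fun p _ => ?_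
        rw [hD]
        rcases p with p | p <;> rfl)
    exact ⟨lam', fun b hb => h3 _ ⟨b, hb, rfl⟩, fun a I => h4 (a, I)⟩

/-- The data of a limit point. -/
theorem PdS.om {K : Type} [Field K] {D : A → (Fin (n + 1) →₀ ℕ) → Derivation ℤ K K}
    {xs : ℕ → Fin (n + 1) → K} {ys : ℕ → A → K}
    (h : ∀ q, PdS g dg D (xs q) (ys q) m μ J S) :
    PdS g dg (fun a I => hat (D a I)) (fun l => Om.mk fun q => xs q l)
      (fun a => Om.mk fun q => ys q a) m μ J S := by
  refine ⟨?_, fun i hi => ?_, fun s hs => ?_⟩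
  · have h1 : fam g dg (fun a I => hat (D a I)) (fun l => Om.mk fun q => xs q l) =
        fun r j => Om.mk fun q => fam g dg D (xs q) r j := by
      funext r j
      exact fam_om xs r j
    rw [h1]
    exact rank_om (fun q => fam g dg D (xs q)) fun q => (h q).rk
  · have h1 : (fun r j => bl g i (fam g dg (fun a I => hat (D a I))
        (fun l => Om.mk fun q => xs q l) r) j) =
        fun r j => Om.mk fun q => bl g i (fam g dg D (xs q) r) j := by
      funext r j
      unfold bl
      split_ifs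
      · exact fam_om xs r j
      · rfl
    rw [h1]
    exact rank_om (fun q r j => bl g i (fam g dg D (xs q) r) j) fun q => (h q).blk i hi
  · choose lam h1 h2 using fun q => (h q).rel s hs
    refine ⟨fun p => Om.mk fun q => lam q p, fun b hb => ?_, fun a I => ?_⟩
    · simp only [h1 _ b hb]
      rfl
    · rw [hat_mk]
      simp only [h2]
      have h3 : (Om.mk fun q => ∑ p, lam q p * D a I (Sum.elim (xs q) (ys q) p)) =
          ∑ p, Om.mk fun q => lam q p * D a I (Sum.elim (xs q) (ys q) p) := by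
        have h4 := map_sum (Pool.Agent.TH145.MF.mkHom K)
          (fun (p : Fin (n + 1) ⊕ A) (q : ℕ) => lam q p * D a I (Sum.elim (xs q) (ys q) p))
          Finset.univ
        rw [← Pool.Agent.TH145.MF.mkHom_apply]
        have h5 : (fun q => ∑ p, lam q p * D a I (Sum.elim (xs q) (ys q) p)) =
            ∑ p, fun (q : ℕ) => lam q p * D a I (Sum.elim (xs q) (ys q) p) := by
          funext q
          rw [Finset.sum_apply]
        rw [h5]
        exact h4
      rw [h3]
      refine Finset.sum_congr rfl fun p _ => ?_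
      rcases p with p | p <;> rfl

/-- The functionals of a point. -/
theorem PdS.exists_fun {L : Type} [Field L] {D : A → (Fin (n + 1) →₀ ℕ) → Derivation ℤ L L}
    {x : Fin (n + 1) → L} {F : A → MvPolynomial (Fin (n + 1)) L}
    (h : PdS g dg D x (fun a => eval x (F a)) m μ J S) (hD : DualE g F dg D fun _ _ => 0)
    {l0 : ι → Fin (n + 1)} (hg : ∀ i, g (l0 i) = i) (hx : ∀ i, x (l0 i) = 1) :
    ∃ Φ : {a // a ∈ J} → (Fin (n + 1) → L) →ₗ[L] L,
      Fun g (dg ∘ fun a : {a // a ∈ J} => a.1) (D ∘ fun a : {a // a ∈ J} => a.1) (noE L) x Φ := by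
  have h1 : Pd g dg D x (fun a => eval x (F a)) m (fun _ => n + 1) J := by
    refine ⟨h.rk, fun i => ?_, h.rel⟩
    refine (Submodule.finrank_le _).trans ?_
    rw [Module.finrank_fin_fun]
    exact Nat.le_succ _
  exact h1.exists_fun hD hg hx

/-- The height inequality. -/
theorem PdS.ineq {k K : Type} [Field k] [Field K] [Algebra k K] [IsAlgClosed k] [CharZero k]
    [IsFF k K] {F : A → MvPolynomial (Fin (n + 1)) K}
    {D : A → (Fin (n + 1) →₀ ℕ) → Derivation ℤ K K} {e : Place k K → ℤ}
    (hdat : Data k g F dg D e) {x : Fin (n + 1) → K}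
    (h : PdS g dg D x (fun a => eval x (F a)) m μ J S)
    (hdim : ∀ i ∈ S, m + μ i + 2 ≤ ∑ a ∈ J, (dg a i + 1))
    {l0 : ι → Fin (n + 1)} (hg : ∀ i, g (l0 i) = i) (hx : ∀ i, x (l0 i) = 1)
    {H : ℤ} (hH : ∀ i ∉ S, pht k (bl g i x) ≤ H) (hH0 : 0 ≤ H) {i0 : ι} (hi0 : i0 ∈ S) :
    pht k (bl g i0 x) ≤ ∑ᶠ P, (n + 1) * e P + Fintype.card ι * (2 * (n + 1) * H) := by
  obtain ⟨Φ, hΦ⟩ := h.exists_fun (hdat.dual.dualE hdat.hom) hg hx
  have h1 := full_mono (g := g) (dg := dg) (D := D) (E := noE K)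
    (fun a : {a // a ∈ J} => a.1) x
  refine ineqS hdat (fun a : {a // a ∈ J} => a.1) (m := m) (μ := μ) S (fun i hi => ?_)
    (fun i => ⟨l0 i, hg i, by rw [hx]; exact one_ne_zero⟩)
    ((Submodule.finrank_mono h1).trans (by rw [full_eq]; exact h.rk)) (fun i hi =>
      (Submodule.finrank_mono (Submodule.map_mono h1)).trans (by
        rw [full_block]; exact h.blk i hi)) hΦ hH hH0 hi0
  have h2 := hdim i hi
  rw [Finset.sum_add_distrib, ← Finset.card_eq_sum_ones] at h2
  rw [← Finset.sum_coe_sort J (fun a => dg a i)] at h2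
  rw [Fintype.card_coe]
  exact h2

end

end Pool.Agent.V7H43.GD
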