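import Pool.Agent.V7H43.GD.Gen
import Pool.Agent.V7H43.GU.Cor
import Pool.Agent.V7H76.MP.Det

/-!
The reduction of systems of forms whose coefficients have a large transcendence degree to generic
forms, with a new block of fixed coordinates.
-/

set_option autoImplicit false

open MvPolynomial Pool.Agent.TH145.GH Pool.Agent.TH145.MG
open Pool.Agent.W602.GT
open Pool.Agent.V7H76.MP Pool.Agent.V7H43.GU

namespace Pool.Agent.V7H43.GD

section ext

variable {n n' : ℕ} {ι A : Type} [DecidableEq ι]

/-- A new block of coordinates. -/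
structure Ext (g : Fin (n + 1) → ι) (g' : Fin (n' + 1) → Option ι)
    (σ : Fin (n + 1) → Fin (n' + 1)) : Prop where
  inj : Function.Injective σ
  blk : ∀ s, g' (σ s) = some (g s)
  out : ∀ t, t ∉ Set.range σ → g' t = none

/-- The multidegree, with degree `0` in the new block. -/
def dE (d : A → ι → ℕ) : A → Option ι → ℕ := fun a o => o.elim 0 (d a)

variable {g : Fin (n + 1) → ι} {g' : Fin (n' + 1) → Option ι} {σ : Fin (n + 1) → Fin (n' + 1)}

theorem Ext.mdeg_map (h : Ext g g' σ) (I : Fin (n + 1) →₀ ℕ) :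
    mdeg g' (I.mapDomain σ) = fun o => o.elim 0 (mdeg g I) := by
  induction I using Finsupp.induction_linear with
  | zero =>
    funext o
    rw [Finsupp.mapDomain_zero]
    have h1 : mdeg g' (0 : Fin (n' + 1) →₀ ℕ) o = 0 := by
      unfold mdeg
      exact Finset.sum_eq_zero fun s _ => by simp
    rw [h1]
    cases o with
    | none => rfl
    | some i =>
      change 0 = mdeg g (0 : Fin (n + 1) →₀ ℕ) i
      unfold mdeg
      symm
      exact Finset.sum_eq_zero fun s _ => by simp
  | add I J hI hJ =>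
    rw [Finsupp.mapDomain_add, mdeg_add, hI, hJ, mdeg_add]
    funext o
    cases o <;> rfl
  | single s m =>
    rw [Finsupp.mapDomain_single, mdeg_single, mdeg_single, h.blk]
    funext o
    cases o with
    | none => exact Pi.single_eq_of_ne (by simp) _
    | some i =>
      change (Pi.single (some (g s)) m : Option ι → ℕ) (some i) = (Pi.single (g s) m : ι → ℕ) i
      by_cases hi : i = g s
      · subst hi
        rw [Pi.single_eq_same, Pi.single_eq_same]
      · rw [Pi.single_eq_of_ne hi, Pi.single_eq_of_ne (by simpa using hi)]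

theorem Ext.exists_map (h : Ext g g' σ) {J : Fin (n' + 1) →₀ ℕ} (hJ : mdeg g' J none = 0) :
    (J.comapDomain σ h.inj.injOn).mapDomain σ = J := by
  refine Finsupp.mapDomain_comapDomain σ h.inj J fun t ht => ?_
  by_contra hcon
  have h1 := le_mdeg g' J t
  rw [h.out t hcon, hJ] at h1
  exact (Finsupp.mem_support_iff.1 ht) (Nat.le_zero.1 h1)

theorem Ext.mh (h : Ext g g' σ) {R : Type} [CommSemiring R] {F : MvPolynomial (Fin (n + 1)) R}
    {d : ι → ℕ} (hF : MH g F d) : MH g' (rename σ F) (fun o => o.elim 0 d) := by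
  intro u hu
  rw [mem_support_iff] at hu
  obtain ⟨v, hv, hv0⟩ := coeff_rename_ne_zero _ _ _ hu
  rw [← hv, h.mdeg_map, hF v (mem_support_iff.2 hv0)]

theorem Ext.indep (h : Ext g g' σ) {k K : Type} [Field k] [Field K] [Algebra k K]
    {F : A → MvPolynomial (Fin (n + 1)) K} {d : A → ι → ℕ}
    (hF : AlgebraicIndependent k fun p : Cf g d => (F p.1).coeff p.2.1) :
    AlgebraicIndependent k fun p : Cf g' (dE d) => (rename σ (F p.1)).coeff p.2.1 := by
  have h0 : ∀ p : Cf g' (dE d), mdeg g' p.2.1 none = 0 := fun p => by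
    rw [p.2.2]
    rfl
  have h1 : ∀ p : Cf g' (dE d), (p.2.1.comapDomain σ h.inj.injOn).mapDomain σ = p.2.1 :=
    fun p => h.exists_map (h0 p)
  have h2 : ∀ p : Cf g' (dE d), mdeg g (p.2.1.comapDomain σ h.inj.injOn) = d p.1 := by
    intro p
    have h3 := h.mdeg_map (p.2.1.comapDomain σ h.inj.injOn)
    rw [h1, p.2.2] at h3
    funext i
    exact (congrFun h3 (some i)).symm
  obtain ⟨f, hf⟩ : ∃ f : Cf g' (dE d) → Cf g d, ∀ p, f p =
      ⟨p.1, ⟨p.2.1.comapDomain σ h.inj.injOn, h2 p⟩⟩ := ⟨_, fun _ => rfl⟩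
  have hfi : Function.Injective f := by
    rintro ⟨a, I, hI⟩ ⟨b, J, hJ⟩ hp
    rw [hf, hf] at hp
    have h3 : a = b := congrArg Sigma.fst hp
    subst h3
    have h4 := eq_of_heq (Sigma.mk.inj_iff.1 hp).2
    have h5 := congrArg Subtype.val h4
    have h6 := congrArg (Finsupp.mapDomain σ) h5
    have h7 : I = J := by
      have h8 := h1 ⟨a, ⟨I, hI⟩⟩
      have h9 := h1 ⟨a, ⟨J, hJ⟩⟩
      exact h8.symm.trans (h6.trans h9)
    subst h7
    rfl
  have h3 := hF.comp f hfi
  have h4 : (fun p : Cf g' (dE d) => (rename σ (F p.1)).coeff p.2.1) =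
      (fun p : Cf g d => (F p.1).coeff p.2.1) ∘ f := by
    funext p
    rw [Function.comp_apply, hf]
    dsimp only
    conv_lhs => rw [← h1 p]
    exact coeff_rename_mapDomain σ h.inj _ _
  rw [h4]
  exact h3

end ext

section close

/-- The transcendence degree of a field generated by elements that are algebraic over the field
generated by some of them. -/
theorem trdeg_le_of_alg {k Ω : Type} [Field k] [Field Ω] [Algebra k Ω] {A : Type} (y : A → Ω)
    (X : Set Ω) (h : ∀ a, IsAlgebraic (IntermediateField.adjoin k X) (y a)) :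
    Algebra.trdeg k (IntermediateField.adjoin k (Set.range y)) ≤ Cardinal.mk X := by
  have halg : Algebra.IsAlgebraic (IntermediateField.adjoin k X)
      (IntermediateField.adjoin (IntermediateField.adjoin k X) (Set.range y)) := by
    refine IntermediateField.isAlgebraic_adjoin ?_
    rintro _ ⟨a, rfl⟩
    exact (h a).isIntegral
  have h1 := trdeg_add_eq k (IntermediateField.adjoin k X)
    (A := IntermediateField.adjoin (IntermediateField.adjoin k X) (Set.range y))
  have h2 : Algebra.trdeg k (IntermediateField.adjoin (IntermediateField.adjoin k X)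
      (Set.range y)) = Algebra.trdeg k (IntermediateField.adjoin k (X ∪ Set.range y)) := by
    rw [← IntermediateField.adjoin_adjoin_left]
    rfl
  rw [trdeg_eq_zero (R := IntermediateField.adjoin k X), add_zero, h2] at h1
  have h3 : IntermediateField.adjoin k (Set.range y) ≤
      IntermediateField.adjoin k (X ∪ Set.range y) :=
    IntermediateField.adjoin.mono _ _ _ Set.subset_union_right
  refine (trdeg_le_of_injective (IntermediateField.inclusion h3)
    (IntermediateField.inclusion_injective h3)).trans ?_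
  rw [← h1]
  exact trdeg_adjoin_le X

/-- A tuple of elements with large transcendence degree becomes algebraically independent if few
of the elements are changed. -/
theorem exists_close {k K : Type} [Field k] [Field K] [Algebra k K] {P : Type} [Fintype P]
    (c : P → K) {δ : ℕ}
    (h1 : Cardinal.mk P ≤ Algebra.trdeg k (IntermediateField.adjoin k (Set.range c)) + δ)
    (h2 : Cardinal.mk P ≤ Algebra.trdeg k K) :
    ∃ (J : Finset P) (c' : P → K), J.card ≤ δ ∧ AlgebraicIndependent k c' ∧
      ∀ p ∉ J, c' p = c p := by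
  classical
  obtain ⟨J, hJ, hJ'⟩ := exists_indep_compl (k := k) c
  have hPJ : Fintype.card {p // p ∉ J} + J.card = Fintype.card P := by
    rw [Fintype.card_subtype_compl, Fintype.card_coe]
    exact Nat.sub_add_cancel (Finset.card_le_univ J)
  have hJδ : J.card ≤ δ := by
    have h3 := trdeg_le_of_alg c (c '' {b | b ∉ J}) hJ'
    have h4 : Cardinal.mk (c '' {b | b ∉ J} : Set K) ≤ (Fintype.card {p // p ∉ J} : ℕ) := by
      refine Cardinal.mk_image_le.trans (le_of_eq ?_)
      exact Cardinal.mk_fintype {p // p ∉ J}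
    have h5 : ((Fintype.card P : ℕ) : Cardinal) ≤
        ((Fintype.card {p // p ∉ J} + δ : ℕ) : Cardinal) := by
      rw [← Cardinal.mk_fintype, Nat.cast_add]
      exact h1.trans (add_le_add_left (h3.trans h4) _)
    have h6 := Nat.cast_le.1 h5
    omega
  obtain ⟨X, hX⟩ : ∃ X : Set K, X = Set.range fun p : {p // p ∉ J} => c p := ⟨_, rfl⟩
  have hXi : AlgebraicIndepOn k id X := by
    rw [hX]
    exact hJ.to_subtype_range
  obtain ⟨B, hXB, hB⟩ := exists_isTranscendenceBasis_superset hXi
  have hBc : Cardinal.mk B = Algebra.trdeg k K := hB.cardinalMk_eq_trdeg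
  have hemb : Cardinal.mk J ≤ Cardinal.mk (B \ X : Set K) := by
    by_contra hcon
    rw [not_le] at hcon
    have h3 : Cardinal.mk B ≤ Cardinal.mk (B \ X : Set K) + Cardinal.mk X := by
      refine le_trans ?_ (Cardinal.mk_union_le _ _)
      exact Cardinal.mk_le_mk_of_subset (by
        intro z hz
        by_cases hzX : z ∈ X
        · exact Or.inr hzX
        · exact Or.inl ⟨hz, hzX⟩)
    have h4 : Cardinal.mk X ≤ (Fintype.card {p // p ∉ J} : ℕ) := by
      rw [hX]
      refine Cardinal.mk_range_le.trans (le_of_eq ?_)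
      exact Cardinal.mk_fintype {p // p ∉ J}
    rw [Cardinal.mk_coe_finset] at hcon
    obtain ⟨q, hq⟩ := Cardinal.lt_aleph0.1 (hcon.trans Cardinal.natCast_lt_aleph0)
    rw [hq] at hcon h3
    have h5 : ((Fintype.card P : ℕ) : Cardinal) ≤
        ((q + Fintype.card {p // p ∉ J} : ℕ) : Cardinal) := by
      rw [← Cardinal.mk_fintype, Nat.cast_add]
      exact h2.trans (hBc.symm.le.trans (h3.trans (add_le_add_right h4 _)))
    have h6 := Nat.cast_le.1 h5
    have h7 := Nat.cast_lt.1 hcon
    omega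
  obtain ⟨s⟩ : Nonempty (J ↪ (B \ X : Set K)) := hemb
  obtain ⟨f, hf⟩ : ∃ f : P → B, ∀ p, (f p : K) = if h : p ∈ J then (s ⟨p, h⟩ : K) else c p := by
    refine ⟨fun p => if h : p ∈ J then ⟨(s ⟨p, h⟩ : K), (s ⟨p, h⟩).2.1⟩ else
      ⟨c p, hXB (by rw [hX]; exact ⟨⟨p, h⟩, rfl⟩)⟩, fun p => ?_⟩
    dsimp only
    split_ifs <;> rfl
  have hfi : Function.Injective f := by
    intro p q hpq
    have h3 : (f p : K) = f q := by rw [hpq]
    rw [hf, hf] at h3
    have hout : ∀ p, p ∉ J → c p ∈ X := fun p hp => by rw [hX]; exact ⟨⟨p, hp⟩, rfl⟩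
    split_ifs at h3 with hp hq hq
    · exact congrArg Subtype.val (s.injective (Subtype.ext h3))
    · exact absurd (h3 ▸ hout q hq) (s ⟨p, hp⟩).2.2
    · exact absurd (h3 ▸ hout p hp) (s ⟨q, hq⟩).2.2
    · exact congrArg Subtype.val (hJ.injective (a₁ := ⟨p, hp⟩) (a₂ := ⟨q, hq⟩) h3)
  refine ⟨J, fun p => (f p : K), hJδ, hB.1.comp f hfi, fun p hp => ?_⟩
  exact (hf p).trans (dif_neg hp)

/-- Generic forms close to forms whose coefficients have a large transcendence degree. -/
theorem exists_forms {k K : Type} [Field k] [Field K] [Algebra k K] {n δ : ℕ} {A ι : Type}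
    [Fintype A] [DecidableEq ι] [Fintype ι] {g : Fin (n + 1) → ι} {d : A → ι → ℕ}
    {F : A → MvPolynomial (Fin (n + 1)) K} (hF : ∀ a, MH g (F a) (d a))
    (h1 : Cardinal.mk (Cf g d) ≤ Algebra.trdeg k (IntermediateField.adjoin k
      (Set.range fun p : Cf g d => (F p.1).coeff p.2.1)) + δ)
    (h2 : Cardinal.mk (Cf g d) ≤ Algebra.trdeg k K) :
    ∃ (F' : A → MvPolynomial (Fin (n + 1)) K) (z : Fin δ → K), (∀ a, MH g (F' a) (d a)) ∧
      AlgebraicIndependent k (fun p : Cf g d => (F' p.1).coeff p.2.1) ∧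
      ∀ a u, (F a).coeff u = (F' a).coeff u ∨ ∃ j, z j = (F a).coeff u - (F' a).coeff u := by
  classical
  have hfin : Finite (Cf g d) := finite_cf g d
  have := Fintype.ofFinite (Cf g d)
  have hfa : ∀ a, Finite {I : Fin (n + 1) →₀ ℕ // mdeg g I = d a} := fun a =>
    (finite_mdeg g (d a)).to_subtype
  have := fun a => Fintype.ofFinite {I : Fin (n + 1) →₀ ℕ // mdeg g I = d a}
  obtain ⟨J, c', hJ, hc', hcJ⟩ := exists_close _ h1 h2
  obtain ⟨F', hF'⟩ : ∃ F' : A → MvPolynomial (Fin (n + 1)) K, ∀ a, F' a =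
      ∑ I : {I : Fin (n + 1) →₀ ℕ // mdeg g I = d a}, monomial I.1 (c' ⟨a, I⟩) :=
    ⟨_, fun _ => rfl⟩
  have hco : ∀ p : Cf g d, (F' p.1).coeff p.2.1 = c' p := by
    rintro ⟨a, I⟩
    rw [hF', coeff_sum]
    simp only [coeff_monomial]
    rw [Finset.sum_eq_single I, if_pos rfl]
    · intro J _ hJ
      exact if_neg fun h => hJ (Subtype.ext h)
    · intro h; exact absurd (Finset.mem_univ _) h
  have hMH : ∀ a, MH g (F' a) (d a) := by
    intro a u hu
    by_contra hcon
    rw [mem_support_iff, hF', coeff_sum] at hu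
    apply hu
    refine Finset.sum_eq_zero fun I _ => ?_
    rw [coeff_monomial, if_neg]
    intro h
    exact hcon (h ▸ I.2)
  obtain ⟨z, hz⟩ : ∃ z : Fin δ → K, ∀ p ∈ J, ∃ j, z j = (F p.1).coeff p.2.1 - c' p := by
    refine ⟨fun j => if h : (j : ℕ) < J.card then
      (F (J.equivFin.symm ⟨j, h⟩).1.1).coeff (J.equivFin.symm ⟨j, h⟩).1.2.1 -
        c' (J.equivFin.symm ⟨j, h⟩).1 else 0, fun p hp => ?_⟩
    refine ⟨Fin.castLE hJ (J.equivFin ⟨p, hp⟩), ?_⟩
    dsimp only
    rw [dif_pos (by rw [Fin.val_castLE]; exact (J.equivFin ⟨p, hp⟩).2)]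
    have h3 : J.equivFin.symm ⟨((Fin.castLE hJ (J.equivFin ⟨p, hp⟩) : Fin δ) : ℕ), by
        rw [Fin.val_castLE]; exact (J.equivFin ⟨p, hp⟩).2⟩ = ⟨p, hp⟩ := by
      rw [Equiv.symm_apply_eq]
      rfl
    rw [h3]
  refine ⟨F', z, hMH, ?_, fun a u => ?_⟩
  · have h3 : (fun p : Cf g d => (F' p.1).coeff p.2.1) = c' := funext hco
    rw [h3]
    exact hc'
  · by_cases hu : mdeg g u = d a
    · by_cases hp : (⟨a, ⟨u, hu⟩⟩ : Cf g d) ∈ J
      · right
        obtain ⟨j, hj⟩ := hz _ hp
        exact ⟨j, by rw [hj, ← hco]⟩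
      · left
        rw [hco ⟨a, ⟨u, hu⟩⟩]
        exact (hcJ _ hp).symm
    · left
      have h3 : (F a).coeff u = 0 := by
        by_contra hcon
        exact hu (hF a u (mem_support_iff.2 hcon))
      have h4 : (F' a).coeff u = 0 := by
        by_contra hcon
        exact hu (hMH a u (mem_support_iff.2 hcon))
      rw [h3, h4]

end close

section point

variable {n n' δ : ℕ} {ι A : Type} [DecidableEq ι]
  {g : Fin (n + 1) → ι} {g' : Fin (n' + 1) → Option ι} {σ : Fin (n + 1) → Fin (n' + 1)}

theorem aeval_mem {k K L : Type} [Field k] [Field K] [Field L] [Algebra k L] [Algebra K L]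
    (M : IntermediateField k L) {x : Fin (n + 1) → L} (hx : ∀ s, x s ∈ M)
    {G : MvPolynomial (Fin (n + 1)) K} (hG : ∀ u, algebraMap K L (G.coeff u) ∈ M) :
    aeval x G ∈ M := by
  rw [aeval_def, eval₂_eq']
  exact sum_mem fun u _ => mul_mem (hG u) (prod_mem fun s _ => pow_mem (hx s) _)

/-- The condition at the extended point. -/
theorem ptCondS_ext {k K L : Type} [Field k] [Field K] [Field L] [Algebra k L] [Algebra K L]
    (h : Ext g g' σ) {x : Fin (n + 1) → L} {X : Fin (n' + 1) → L} (hX : ∀ s, X (σ s) = x s)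
    {z : Fin δ → K} (hXz : ∀ t ∉ Set.range σ, X t = 1 ∨ ∃ j, X t = algebraMap K L (z j))
    (hzX : ∀ j, ∃ t, X t = algebraMap K L (z j))
    {F F' : A → MvPolynomial (Fin (n + 1)) K} {d : A → ι → ℕ}
    (hd : ∀ a u, (F a).coeff u = (F' a).coeff u ∨ ∃ j, z j = (F a).coeff u - (F' a).coeff u)
    {c : ι → ℕ} {w : ℕ} (hP : PtCond g k d (fun i => c i + δ) w x fun a => aeval x (F a)) :
    PtCondS g' k (dE d) (Set.range some) (fun o => o.elim 0 c) w X
      fun a => aeval X (rename σ (F' a)) := by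
  obtain ⟨m, μ, J, hm, hμ, hJ, hdim⟩ := hP
  have hxX : ∀ s, x s ∈ Set.range X := fun s => ⟨σ s, hX s⟩
  have hXx : Set.range X ⊆ (IntermediateField.adjoin k (Set.range x ∪
      Set.range fun j => algebraMap K L (z j)) : Set L) := by
    rintro _ ⟨t, rfl⟩
    by_cases ht : t ∈ Set.range σ
    · obtain ⟨s, rfl⟩ := ht
      rw [hX]
      exact IntermediateField.subset_adjoin _ _ (Or.inl ⟨s, rfl⟩)
    · rcases hXz t ht with h1 | ⟨j, hj⟩
      · rw [h1]
        exact one_mem _
      · rw [hj]
        exact IntermediateField.subset_adjoin _ _ (Or.inr ⟨j, rfl⟩)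
  have hY : ∀ a, aeval X (rename σ (F' a)) = aeval x (F' a) := by
    intro a
    rw [aeval_rename]
    congr 2
    funext s
    exact hX s
  obtain ⟨M, hM⟩ : ∃ M : IntermediateField k L, M = IntermediateField.adjoin k
      (Set.range X ∪ (fun a => aeval X (rename σ (F' a))) '' {b | b ∉ J}) := ⟨_, rfl⟩
  have hXM : ∀ t, X t ∈ M := fun t => by
    rw [hM]
    exact IntermediateField.subset_adjoin _ _ (Or.inl ⟨t, rfl⟩)
  have hxM : ∀ s, x s ∈ M := fun s => by
    rw [← hX]
    exact hXM _
  have hdiff : ∀ a, aeval x (F a) - aeval x (F' a) ∈ M := by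
    intro a
    rw [← map_sub]
    refine aeval_mem M hxM fun u => ?_
    rw [coeff_sub]
    rcases hd a u with h1 | ⟨j, hj⟩
    · rw [h1, sub_self, map_zero]
      exact zero_mem _
    · rw [← hj]
      obtain ⟨t, ht⟩ := hzX j
      rw [← ht]
      exact hXM t
  have hyM : ∀ b ∉ J, aeval x (F b) ∈ M := by
    intro b hb
    have h1 : aeval x (F' b) ∈ M := by
      rw [hM, ← hY]
      exact IntermediateField.subset_adjoin _ _ (Or.inr ⟨b, hb, rfl⟩)
    have h2 := add_mem (hdiff b) h1
    rwa [sub_add_cancel] at h2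
  have hle : IntermediateField.adjoin k
      (Set.range x ∪ (fun a => aeval x (F a)) '' {b | b ∉ J}) ≤ M := by
    rw [IntermediateField.adjoin_le_iff]
    rintro _ (⟨s, rfl⟩ | ⟨b, hb, rfl⟩)
    · exact hxM s
    · exact hyM b hb
  refine ⟨m + δ, fun o => o.elim 0 μ, J, ?_, ?_, fun a ha => ?_, ?_⟩
  · have h1 : IntermediateField.adjoin k (Set.range X) ≤ IntermediateField.adjoin k
      (Set.range x ∪ Set.range fun j => algebraMap K L (z j)) := by
      rw [IntermediateField.adjoin_le_iff]
      exact hXx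
    refine (trdeg_le_of_injective (IntermediateField.inclusion h1)
      (IntermediateField.inclusion_injective h1)).trans ?_
    refine (trdeg_union _ _).trans ?_
    rw [Nat.cast_add]
    refine add_le_add hm ?_
    refine Cardinal.mk_range_le.trans (le_of_eq ?_)
    rw [Cardinal.mk_fin]
  · rintro _ ⟨i, rfl⟩
    have h1 : X '' {s | g' s = some i} = x '' {s | g s = i} := by
      ext y
      constructor
      · rintro ⟨t, ht, rfl⟩
        by_cases htσ : t ∈ Set.range σ
        · obtain ⟨s, rfl⟩ := htσ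
          have ht' : g' (σ s) = some i := ht
          rw [h.blk] at ht'
          exact ⟨s, Option.some_injective _ ht', (hX s).symm⟩
        · have ht' : g' t = some i := ht
          rw [h.out t htσ] at ht'
          exact absurd ht' (by simp)
      · rintro ⟨s, hs, rfl⟩
        have hs' : g s = i := hs
        exact ⟨σ s, by rw [Set.mem_ofPred_eq, h.blk, hs'], hX s⟩
    rw [h1]
    exact hμ i
  · have h1 : IsAlgebraic M (aeval x (F a)) :=
      Pool.Agent.TH145.MF.alg_mono (F1 := (IntermediateField.adjoin k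
        (Set.range x ∪ (fun a => aeval x (F a)) '' {b | b ∉ J})).toSubfield)
        (F2 := M.toSubfield) hle (hJ a ha)
    rw [← hM]
    have h2 : IsAlgebraic M (aeval x (F a) - aeval x (F' a)) :=
      isAlgebraic_algebraMap (⟨_, hdiff a⟩ : M)
    have h3 := h1.sub h2
    rw [sub_sub_cancel] at h3
    dsimp only
    rw [hY]
    exact h3
  · rintro _ ⟨i, rfl⟩
    have h1 : m + μ i + (c i + δ) ≤ ∑ a ∈ J, (d a i + 1) + w := hdim i
    have h2 : ∀ a, dE d a (some i) = d a i := fun a => rfl
    simp only [h2]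
    change m + δ + μ i + c i ≤ _
    omega

end point

end Pool.Agent.V7H43.GD
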