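import Pool.Agent.V7H43.GD.Limit
import Pool.Agent.V7H43.GU.Setup

/-!
Finiteness of the points over a finitely generated field, with some fixed coordinates.
-/

set_option autoImplicit false

open MvPolynomial Pool.Agent.TH145.GH Pool.Agent.V7H76.MP Pool.Agent.V7H43.GU

namespace Pool.Agent.V7H43.GD

/-- The condition at a point `x`, with `y` the values of the forms at `x`. The inequalities are
required only for the blocks in `S`. -/
def PtCondS {n : ℕ} {ι A : Type} (g : Fin (n + 1) → ι) (k : Type) [Field k] {Ω : Type} [Field Ω]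
    [Algebra k Ω] (d : A → ι → ℕ) (S : Set ι) (c : ι → ℕ) (w : ℕ) (x : Fin (n + 1) → Ω)
    (y : A → Ω) : Prop :=
  ∃ (m : ℕ) (μ : ι → ℕ) (J : Finset A),
    Algebra.trdeg k (IntermediateField.adjoin k (Set.range x)) ≤ m ∧
    (∀ i ∈ S, Algebra.trdeg k (IntermediateField.adjoin k (x '' {s | g s = i})) ≤ μ i) ∧
    (∀ a ∈ J, IsAlgebraic (IntermediateField.adjoin k (Set.range x ∪ y '' {b | b ∉ J})) (y a)) ∧
    ∀ i ∈ S, m + μ i + c i ≤ ∑ a ∈ J, (d a i + 1) + w

/-- Finiteness of the points, for one normalisation. -/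
theorem fin_l0S {k0 K : Type} [Field k0] [Field K] [Algebra k0 K] [IsAlgClosed K]
    [CharZero K] [IsAlgClosed k0] {n : ℕ} {A ι : Type} [DecidableEq ι] [Fintype ι]
    {g : Fin (n + 1) → ι} [Fintype A] {dg : A → ι → ℕ}
    {F : A → MvPolynomial (Fin (n + 1)) K} (hF : ∀ a, MH g (F a) (dg a))
    (hind : AlgebraicIndependent k0 fun p : Cf g dg => (F p.1).coeff p.2.1)
    (T : Finset K) (S : Set ι) (hS : S.Nonempty) (z : Fin (n + 1) → K) {l0 : ι → Fin (n + 1)}
    (hg0 : ∀ i, g (l0 i) = i) :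
    {x : Fin (n + 1) → K | (∀ j, x j ∈ IntermediateField.adjoin k0 (T : Set K)) ∧
      (∀ i, x (l0 i) = 1) ∧ (∀ j, g j ∉ S → x j = z j) ∧
      PtCondS g k0 dg S (fun _ => 2) 0 x fun a => eval x (F a)}.Finite := by
  classical
  obtain ⟨iS, hiS⟩ := hS
  -- the fixed coordinates, if there is a point
  by_cases hzT : ∀ j, g j ∉ S → z j ∈ IntermediateField.adjoin k0 (T : Set K)
  swap
  · push Not at hzT
    obtain ⟨j, hj, hzj⟩ := hzT
    refine Set.finite_empty.subset ?_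
    rintro x ⟨hx, -, hxz, -⟩
    exact hzj (hxz j hj ▸ hx j)
  obtain ⟨B, hB, K1, y, E, F1, DE, D, hK1, hc, hy, h1, h2, h3, h4, h5, h6, h7, h8⟩ :=
    exists_all hF hind T
  have : Finite B := hB
  obtain ⟨z1, hz1⟩ : ∃ z1 : Fin (n + 1) → K1, ∀ j, g j ∉ S → (z1 j : K) = z j := by
    refine ⟨fun j => if h : g j ∉ S then (h8 (z j) (hzT j h)).choose else 0, fun j hj => ?_⟩
    dsimp only
    rw [dif_pos hj]
    exact (h8 (z j) (hzT j hj)).choose_spec.2
  obtain ⟨N, hN⟩ : ∃ N : ι → ℕ, ∀ i, N i = ∑ a, (dg a i + 1) := ⟨_, fun _ => rfl⟩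
  have h9 : ∀ p : Fin (N iS + 1) × ((i : ι) → Fin (N i + 1)) × Finset A,
      {e : Fin (n + 1) → K1 | (∀ j, e j ∈ E) ∧ (∀ i, e (l0 i) = 1) ∧
        (∀ j, g j ∉ S → e j = z1 j) ∧
        (∀ i ∈ S, (p.1 : ℕ) + (p.2.1 i : ℕ) + 2 ≤ ∑ a ∈ p.2.2, (dg a i + 1)) ∧
        PdS g dg D e (fun a => eval e (map E.toSubfield.subtype (F1 a))) (p.1 : ℕ)
          (fun i => (p.2.1 i : ℕ)) p.2.2 S}.Finite := by
    intro p
    by_cases hd : ∀ i ∈ S, (p.1 : ℕ) + (p.2.1 i : ℕ) + 2 ≤ ∑ a ∈ p.2.2, (dg a i + 1)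
    · refine (fin_fixedS E hy h3 D h4 h5 h6 (m := (p.1 : ℕ)) (μ := fun i => (p.2.1 i : ℕ)) S hd
        hg0 z1).subset ?_
      rintro e ⟨he, hel, hez, -, hP⟩
      exact ⟨he, hel, hez, hP⟩
    · refine Set.finite_empty.subset ?_
      rintro e ⟨-, -, -, hd', -⟩
      exact hd hd'
  refine ((Set.finite_iUnion h9).image fun e j => (e j : K)).subset ?_
  rintro x ⟨hx, hxl, hxz, m, μ, J, hm, hμ, hJ, hd⟩
  choose e he hex using fun j => h8 (x j) (hx j)
  have hex' : (fun j => algebraMap K1 K (e j)) = x := funext hex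
  have hev : ∀ a, algebraMap K1 K (eval e (map E.toSubfield.subtype (F1 a))) =
      eval x (F a) := by
    intro a
    rw [← h7, eval_map, eval_map]
    have h10 := hom_eval₂ (F1 a) E.toSubfield.subtype (algebraMap K1 K) e
    rw [h10, hex']
  have hst : IsScalarTower k0 K1 K := IsScalarTower.of_algebraMap_eq fun _ => rfl
  obtain ⟨f, hf⟩ : ∃ f : K1 →ₐ[k0] K, ∀ z, f z = algebraMap K1 K z :=
    ⟨IsScalarTower.toAlgHom k0 K1 K, fun _ => rfl⟩
  have hel : ∀ i, e (l0 i) = 1 := fun i => by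
    apply Subtype.ext
    rw [hex, hxl]
    rfl
  have hez : ∀ j, g j ∉ S → e j = z1 j := fun j hj => by
    apply Subtype.ext
    rw [hex, hxz j hj, hz1 j hj]
  have hfx : ∀ S : Set (Fin (n + 1)), f '' (e '' S) = x '' S := by
    intro S
    rw [← Set.image_comp]
    refine Set.image_congr fun j _ => ?_
    rw [Function.comp_apply, hf]
    exact hex j
  have hfy : ∀ S : Set A, f '' ((fun a => eval e (map E.toSubfield.subtype (F1 a))) '' S) =
      (fun a => eval x (F a)) '' S := by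
    intro S
    rw [← Set.image_comp]
    refine Set.image_congr fun a _ => ?_
    rw [Function.comp_apply, hf]
    exact hev a
  have hle : ∀ i, ∑ a ∈ J, (dg a i + 1) ≤ N i := fun i => by
    rw [hN]
    exact Finset.sum_le_sum_of_subset (Finset.subset_univ J)
  have hmN : m < N iS + 1 := by
    have h10 := hd iS hiS
    have h11 := hle iS
    omega
  have hμN : ∀ i ∈ S, μ i < N i + 1 := fun i hi => by
    have h10 := hd i hi
    have h11 := hle i
    omega
  obtain ⟨μ', hμ'⟩ : ∃ μ' : (i : ι) → Fin (N i + 1), ∀ i ∈ S, (μ' i : ℕ) = μ i := by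
    refine ⟨fun i => if h : i ∈ S then ⟨μ i, hμN i h⟩ else 0, fun i hi => ?_⟩
    dsimp only
    rw [dif_pos hi]
  refine ⟨e, Set.mem_iUnion.2 ⟨(⟨m, hmN⟩, μ', J), he, hel, hez,
    fun i hi => by rw [hμ' i hi]; exact hd i hi, ?_⟩, funext hex⟩
  refine PdS.of_alg (k0 := k0) h5 hg0 hel ?_ (fun i hi => ?_) fun a ha => ?_
  · refine (trdeg_image f _).trans ?_
    rw [← Set.image_univ, hfx, Set.image_univ]
    exact hm
  · refine (trdeg_image f _).trans ?_
    rw [hfx, hμ' i hi]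
    exact hμ i hi
  · refine alg_image f ?_
    rw [Set.image_union, ← Set.image_univ, hfx, Set.image_univ, hfy]
    have h10 := hJ a ha
    have h11 : f (eval e (map E.toSubfield.subtype (F1 a))) = eval x (F a) := by
      rw [hf]
      exact hev a
    rw [h11]
    exact h10

/-- Finiteness of the points. -/
theorem fin_US {k K : Type} [Field k] [Field K] [IsAlgClosed K] [CharZero K] [Algebra k K]
    {n : ℕ} {A ι : Type} [DecidableEq ι] [Fintype ι] {g : Fin (n + 1) → ι} [Fintype A]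
    {dg : A → ι → ℕ} {F : A → MvPolynomial (Fin (n + 1)) K} (hF : ∀ a, MH g (F a) (dg a))
    (hind : AlgebraicIndependent k fun p : Cf g dg => (F p.1).coeff p.2.1) (T : Finset K)
    (S : Set ι) (hS : S.Nonempty) (z : Fin (n + 1) → K) :
    {x : Fin (n + 1) → K |
      (∀ j, x j ∈ IntermediateField.adjoin (algebraicClosure k K) (T : Set K)) ∧
      (∀ i, ∃ s, g s = i ∧ x s = 1) ∧ (∀ j, g j ∉ S → x j = z j) ∧
      PtCondS g (algebraicClosure k K) dg S (fun _ => 2) 0 x fun a => eval x (F a)}.Finite := by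
  have hac : IsAlgClosed (algebraicClosure k K) := (algebraicClosure.isAlgClosure k K).isAlgClosed
  have h1 : ∀ l0 : {l0 : ι → Fin (n + 1) // ∀ i, g (l0 i) = i}, _ := fun l0 =>
    fin_l0S hF hind.algebraicClosure T S hS z l0.2
  refine (Set.finite_iUnion h1).subset ?_
  rintro x ⟨hx, hx0, hxz, hP⟩
  choose l0 hg0 hl0 using hx0
  exact Set.mem_iUnion.2 ⟨⟨l0, hg0⟩, hx, hl0, hxz, hP⟩

end Pool.Agent.V7H43.GD
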